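import Mathlib

set_option autoImplicit false

namespace Pool.Agent.CTIso

/-- The generating set of `CT_P(ℤ)`: class transpositions with `P ∪ {2}`-smooth moduli. -/
def gens (P : Set ℕ) : Set (Equiv.Perm ℤ) :=
  {σ : Equiv.Perm ℤ | ∃ m1 m2 r1 r2 : ℤ,
            0 < m1 ∧ 0 < m2 ∧ 0 ≤ r1 ∧ r1 < m1 ∧ 0 ≤ r2 ∧ r2 < m2 ∧
            ¬ ((Int.gcd m1 m2 : ℤ) ∣ (r1 - r2)) ∧
            (∀ p : ℕ, Nat.Prime p → (p : ℤ) ∣ m1 * m2 → p = 2 ∨ p ∈ P) ∧
            ∀ n : ℤ, σ n =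
              (if m1 ∣ n - r1 then r2 + (n - r1) / m1 * m2
               else if m2 ∣ n - r2 then r1 + (n - r2) / m2 * m1
               else n)}

abbrev CT (P : Set ℕ) : Subgroup (Equiv.Perm ℤ) := Subgroup.closure (gens P)

/-- positive integers all of whose prime divisors lie in `P ∪ {2}` -/
def Smooth (P : Set ℕ) (m : ℤ) : Prop :=
  0 < m ∧ ∀ p : ℕ, p.Prime → (p : ℤ) ∣ m → p = 2 ∨ p ∈ P

variable {P : Set ℕ}

lemma Smooth.pos {m : ℤ} (h : Smooth P m) : 0 < m := h.1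

lemma Smooth.ne_zero {m : ℤ} (h : Smooth P m) : m ≠ 0 := h.1.ne'

lemma Smooth.mul {m n : ℤ} (hm : Smooth P m) (hn : Smooth P n) : Smooth P (m * n) := by
  refine ⟨mul_pos hm.1 hn.1, fun p hp hd => ?_⟩
  rcases (Nat.prime_iff_prime_int.mp hp).dvd_or_dvd hd with h | h
  · exact hm.2 p hp h
  · exact hn.2 p hp h

lemma smooth_one : Smooth P 1 := by
  refine ⟨one_pos, fun p hp hd => ?_⟩
  exfalso
  exact (Nat.prime_iff_prime_int.mp hp).not_dvd_one hd

lemma Smooth.pow {m : ℤ} (hm : Smooth P m) (k : ℕ) : Smooth P (m ^ k) := by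
  induction k with
  | zero => simpa using smooth_one
  | succ k ih => rw [pow_succ]; exact ih.mul hm

lemma smooth_two : Smooth P 2 := by
  refine ⟨two_pos, fun p hp hd => Or.inl ?_⟩
  have : p ∣ 2 := by exact_mod_cast hd
  exact (Nat.prime_dvd_prime_iff_eq hp Nat.prime_two).mp this

lemma smooth_prime {p : ℕ} (hp : p.Prime) (hP : p ∈ P) : Smooth P (p : ℤ) := by
  refine ⟨by exact_mod_cast hp.pos, fun q hq hd => Or.inr ?_⟩
  have : q ∣ p := by exact_mod_cast hd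
  rw [(Nat.prime_dvd_prime_iff_eq hq hp).mp this]
  exact hP

lemma Smooth.of_dvd {m n : ℤ} (hm : Smooth P m) (hn : 0 < n) (h : n ∣ m) : Smooth P n :=
  ⟨hn, fun p hp hd => hm.2 p hp (hd.trans h)⟩

/-- two different integers are separated by a power of two -/
lemma exists_pow_two_not_dvd {z : ℤ} (hz : z ≠ 0) : ∃ j : ℕ, ¬ ((2:ℤ)^j ∣ z) := by
  refine ⟨z.natAbs, fun h => ?_⟩
  have h1 : ((2:ℤ)^z.natAbs).natAbs ≤ z.natAbs := Nat.le_of_dvd (Int.natAbs_pos.mpr hz)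
    (Int.natAbs_dvd_natAbs.mpr h)
  rw [Int.natAbs_pow] at h1
  have : z.natAbs < 2 ^ z.natAbs := Nat.lt_two_pow_self
  simp at h1
  omega

lemma disj_of_gcd {m1 m2 r1 r2 : ℤ} (h : ¬ ((Int.gcd m1 m2 : ℤ) ∣ (r1 - r2))) {n : ℤ}
    (h1 : m1 ∣ n - r1) (h2 : m2 ∣ n - r2) : False := by
  apply h
  have e : r1 - r2 = (n - r2) - (n - r1) := by ring
  rw [e]
  exact dvd_sub ((Int.gcd_dvd_right m1 m2).trans h2) ((Int.gcd_dvd_left m1 m2).trans h1)

lemma gcd_of_disj {m1 m2 r1 r2 : ℤ} (h : ∀ j k : ℤ, r1 + j * m1 ≠ r2 + k * m2) :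
    ¬ ((Int.gcd m1 m2 : ℤ) ∣ (r1 - r2)) := by
  rintro ⟨c, hc⟩
  have hb := Int.gcd_eq_gcd_ab m1 m2
  apply h (-(c * Int.gcdA m1 m2)) (c * Int.gcdB m1 m2)
  have : r1 - r2 = (m1 * Int.gcdA m1 m2 + m2 * Int.gcdB m1 m2) * c := by rw [← hb]; exact hc
  linear_combination this

/-- the function underlying a class transposition -/
def ctFun (m1 m2 r1 r2 n : ℤ) : ℤ :=
  if m1 ∣ n - r1 then r2 + (n - r1) / m1 * m2
               else if m2 ∣ n - r2 then r1 + (n - r2) / m2 * m1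
               else n

lemma ctFun_left {m1 m2 r1 r2 : ℤ} (hm1 : 0 < m1) (k : ℤ) :
    ctFun m1 m2 r1 r2 (r1 + k * m1) = r2 + k * m2 := by
  unfold ctFun
  have h1 : m1 ∣ r1 + k * m1 - r1 := ⟨k, by ring⟩
  rw [if_pos h1]
  have : r1 + k * m1 - r1 = k * m1 := by ring
  rw [this, Int.mul_ediv_cancel _ hm1.ne']

lemma ctFun_right {m1 m2 r1 r2 : ℤ} (hm2 : 0 < m2)
    (h : ¬ ((Int.gcd m1 m2 : ℤ) ∣ (r1 - r2))) (k : ℤ) :
    ctFun m1 m2 r1 r2 (r2 + k * m2) = r1 + k * m1 := by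
  unfold ctFun
  have h2 : m2 ∣ r2 + k * m2 - r2 := ⟨k, by ring⟩
  have h1 : ¬ m1 ∣ r2 + k * m2 - r1 := fun h1 => disj_of_gcd h h1 h2
  rw [if_neg h1, if_pos h2]
  have : r2 + k * m2 - r2 = k * m2 := by ring
  rw [this, Int.mul_ediv_cancel _ hm2.ne']

lemma ctFun_other {m1 m2 r1 r2 n : ℤ} (h1 : ∀ k, n ≠ r1 + k * m1) (h2 : ∀ k, n ≠ r2 + k * m2) :
    ctFun m1 m2 r1 r2 n = n := by
  unfold ctFun
  rw [if_neg, if_neg]
  · rintro ⟨k, hk⟩
    exact h2 k (by linear_combination hk)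
  · rintro ⟨k, hk⟩
    exact h1 k (by linear_combination hk)

lemma ctFun_invol {m1 m2 r1 r2 : ℤ} (hm1 : 0 < m1) (hm2 : 0 < m2)
    (h : ¬ ((Int.gcd m1 m2 : ℤ) ∣ (r1 - r2))) (n : ℤ) :
    ctFun m1 m2 r1 r2 (ctFun m1 m2 r1 r2 n) = n := by
  by_cases h1 : ∃ k, n = r1 + k * m1
  · obtain ⟨k, rfl⟩ := h1
    rw [ctFun_left hm1, ctFun_right hm2 h]
  · by_cases h2 : ∃ k, n = r2 + k * m2
    · obtain ⟨k, rfl⟩ := h2
      rw [ctFun_right hm2 h, ctFun_left hm1]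
    · push Not at h1 h2
      rw [ctFun_other h1 h2, ctFun_other h1 h2]

lemma exists_swap {m1 m2 r1 r2 : ℤ} (h1 : Smooth P m1) (h2 : Smooth P m2)
    (hr1 : 0 ≤ r1) (hr1' : r1 < m1) (hr2 : 0 ≤ r2) (hr2' : r2 < m2)
    (hd : ∀ j k : ℤ, r1 + j * m1 ≠ r2 + k * m2) :
    ∃ σ ∈ CT P, (∀ k, σ (r1 + k*m1) = r2 + k*m2) ∧ (∀ k, σ (r2 + k*m2) = r1 + k*m1) ∧
      (∀ n, (∀ k, n ≠ r1 + k*m1) → (∀ k, n ≠ r2 + k*m2) → σ n = n) := by
  have hg := gcd_of_disj hd
  refine ⟨Function.Involutive.toPerm (ctFun m1 m2 r1 r2) (ctFun_invol h1.1 h2.1 hg), ?_, ?_, ?_, ?_⟩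
  · apply Subgroup.subset_closure
    refine ⟨m1, m2, r1, r2, h1.1, h2.1, hr1, hr1', hr2, hr2', hg, ?_, ?_⟩
    · intro p hp hd
      exact (h1.mul h2).2 p hp hd
    · intro n; rfl
  · intro k; exact ctFun_left h1.1 k
  · intro k; exact ctFun_right h2.1 hg k
  · intro n ha hb; exact ctFun_other ha hb

/-- class swap with arbitrary base points -/
lemma exists_swap' {M1 M2 z1 z2 : ℤ} (h1 : Smooth P M1) (h2 : Smooth P M2)
    (hz : z1 / M1 = z2 / M2)
    (hd : ∀ j k : ℤ, z1 + j * M1 ≠ z2 + k * M2) :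
    ∃ σ ∈ CT P, (∀ k, σ (z1 + k*M1) = z2 + k*M2) ∧ (∀ k, σ (z2 + k*M2) = z1 + k*M1) ∧
      (∀ n, (∀ k, n ≠ z1 + k*M1) → (∀ k, n ≠ z2 + k*M2) → σ n = n) := by
  have e1 : z1 = z1 % M1 + (z1 / M1) * M1 := by
    have := Int.emod_add_mul_ediv z1 M1
    linear_combination -this
  have e2 : z2 = z2 % M2 + (z1 / M1) * M2 := by
    have := Int.emod_add_mul_ediv z2 M2
    rw [hz]
    linear_combination -this
  generalize z1 / M1 = c at e1 e2
  obtain ⟨σ, hσ, ha, hb, hc⟩ := exists_swap (P := P) (r1 := z1 % M1) (r2 := z2 % M2) h1 h2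
    (Int.emod_nonneg _ h1.ne_zero) (Int.emod_lt_of_pos _ h1.pos)
    (Int.emod_nonneg _ h2.ne_zero) (Int.emod_lt_of_pos _ h2.pos) (by
      intro j k hjk
      apply hd (j - c) (k - c)
      linear_combination hjk + e1 - e2)
  refine ⟨σ, hσ, ?_, ?_, ?_⟩
  · intro k
    have := ha (c + k)
    rw [show z1 + k * M1 = z1 % M1 + (c + k) * M1 by linear_combination e1, this]
    linear_combination -e2
  · intro k
    have := hb (c + k)
    rw [show z2 + k * M2 = z2 % M2 + (c + k) * M2 by linear_combination e2, this]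
    linear_combination -e1
  · intro n hn1 hn2
    apply hc
    · intro k hk
      apply hn1 (k - c)
      linear_combination hk - e1
    · intro k hk
      apply hn2 (k - c)
      linear_combination hk - e2

/-- `g` acts by standard affine maps on all residue classes mod `m`. -/
def Table (P : Set ℕ) (g : Equiv.Perm ℤ) (m : ℤ) : Prop :=
  Smooth P m ∧ ∀ z : ℤ, ∃ m', Smooth P m' ∧ z / m = g z / m' ∧ ∀ k, g (z + k*m) = g z + k*m'

lemma Table.refine {g : Equiv.Perm ℤ} {m : ℤ} (h : Table P g m) {n : ℤ} (hn : Smooth P n) (z : ℤ) :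
    ∃ m', Smooth P m' ∧ z / (m * n) = g z / (m' * n) ∧ (∀ k, g (z + k*(m*n)) = g z + k*(m'*n)) ∧
      (∀ k, g (z + k*m) = g z + k*m') := by
  obtain ⟨m', hm', hz, hk⟩ := h.2 z
  refine ⟨m', hm', ?_, ?_, hk⟩
  · rw [← Int.ediv_ediv_of_nonneg h.1.pos.le, ← Int.ediv_ediv_of_nonneg hm'.pos.le, hz]
  · intro k
    have := hk (k * n)
    rw [show z + k * (m * n) = z + k * n * m by ring, this]
    ring

lemma Table.comp {g h : Equiv.Perm ℤ} {m n : ℤ} (hg : Table P g m) (hh : Table P h n) :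
    Table P (h * g) (m * n) := by
  refine ⟨hg.1.mul hh.1, fun z => ?_⟩
  obtain ⟨m', hm', h1, h2, -⟩ := hg.refine hh.1 z
  obtain ⟨n', hn', h3, h4, -⟩ := hh.refine hm' (g z)
  refine ⟨n' * m', hn'.mul hm', ?_, ?_⟩
  · rw [h1, mul_comm m' n, h3]; rfl
  · intro k
    simp only [Equiv.Perm.coe_mul, Function.comp]
    rw [h2, mul_comm m' n, h4]

lemma table_one : Table P 1 1 := by
  refine ⟨smooth_one, fun z => ⟨1, smooth_one, rfl, fun k => rfl⟩⟩

lemma ediv_of_class {r m k : ℤ} (hr : 0 ≤ r) (hr' : r < m) : (r + k * m) / m = k := by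
  have hm : 0 < m := lt_of_le_of_lt hr hr'
  rw [Int.add_mul_ediv_right _ _ hm.ne', Int.ediv_eq_zero_of_lt hr hr']
  simp

lemma table_of_gens {σ : Equiv.Perm ℤ} (hσ : σ ∈ gens P) : ∃ m, Table P σ m := by
  obtain ⟨m1, m2, r1, r2, hm1, hm2, hr1, hr1', hr2, hr2', hg, hp, hf⟩ := hσ
  have hf' : ∀ n, σ n = ctFun m1 m2 r1 r2 n := hf
  have hs1 : Smooth P m1 := ⟨hm1, fun p hpp hd => hp p hpp (hd.mul_right _)⟩
  have hs2 : Smooth P m2 := ⟨hm2, fun p hpp hd => hp p hpp (hd.mul_left _)⟩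
  refine ⟨m1 * m2, hs1.mul hs2, fun z => ?_⟩
  by_cases h1 : ∃ k, z = r1 + k * m1
  · obtain ⟨j, rfl⟩ := h1
    refine ⟨m2 * m2, hs2.mul hs2, ?_, ?_⟩
    · rw [hf', ctFun_left hm1, ← Int.ediv_ediv_of_nonneg hm1.le, ← Int.ediv_ediv_of_nonneg hm2.le,
        ediv_of_class hr1 hr1', ediv_of_class hr2 hr2']
    · intro k
      rw [hf', hf', show r1 + j * m1 + k * (m1 * m2) = r1 + (j + k * m2) * m1 by ring,
        ctFun_left hm1, ctFun_left hm1]
      ring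
  · by_cases h2 : ∃ k, z = r2 + k * m2
    · obtain ⟨j, rfl⟩ := h2
      refine ⟨m1 * m1, hs1.mul hs1, ?_, ?_⟩
      · rw [hf', ctFun_right hm2 hg, mul_comm m1 m2, ← Int.ediv_ediv_of_nonneg hm2.le,
          ← Int.ediv_ediv_of_nonneg hm1.le,
          ediv_of_class hr1 hr1', ediv_of_class hr2 hr2']
      · intro k
        rw [hf', hf', show r2 + j * m2 + k * (m1 * m2) = r2 + (j + k * m1) * m2 by ring,
          ctFun_right hm2 hg, ctFun_right hm2 hg]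
        ring
    · push Not at h1 h2
      refine ⟨m1 * m2, hs1.mul hs2, ?_, ?_⟩
      · rw [hf', ctFun_other h1 h2]
      · intro k
        rw [hf', hf', ctFun_other h1 h2, ctFun_other]
        · intro j hj
          apply h1 (j - k * m2)
          linear_combination hj
        · intro j hj
          apply h2 (j - k * m1)
          linear_combination hj

lemma gens_invol {σ : Equiv.Perm ℤ} (hσ : σ ∈ gens P) : σ⁻¹ = σ := by
  obtain ⟨m1, m2, r1, r2, hm1, hm2, hr1, hr1', hr2, hr2', hg, hp, hf⟩ := hσ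
  have hf' : ∀ n, σ n = ctFun m1 m2 r1 r2 n := hf
  have : σ * σ = 1 := by
    ext n
    simp only [Equiv.Perm.coe_mul, Function.comp, Equiv.Perm.coe_one, id]
    rw [hf', hf', ctFun_invol hm1 hm2 hg]
  exact inv_eq_of_mul_eq_one_left this

lemma exists_table {g : Equiv.Perm ℤ} (hg : g ∈ CT P) : ∃ m, Table P g m := by
  have h1 : g ∈ Submonoid.closure (gens P ∪ (gens P)⁻¹) := by
    rw [← Subgroup.closure_toSubmonoid]; exact hg
  have h2 : gens P ∪ (gens P)⁻¹ = gens P := by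
    apply Set.union_eq_self_of_subset_right
    intro σ hσ
    have h3 : σ⁻¹ ∈ gens P := hσ
    have := gens_invol h3
    rw [inv_inv] at this
    rw [this]; exact h3
  rw [h2] at h1
  induction h1 using Submonoid.closure_induction with
  | mem x hx => exact table_of_gens hx
  | one => exact ⟨1, table_one⟩
  | mul x y hx hy ihx ihy =>
    obtain ⟨m, hm⟩ := ihx (by
      have : x ∈ (CT P).toSubmonoid := by
        rw [Subgroup.closure_toSubmonoid, h2]; exact hx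
      exact this)
    obtain ⟨n, hn⟩ := ihy (by
      have : y ∈ (CT P).toSubmonoid := by
        rw [Subgroup.closure_toSubmonoid, h2]; exact hy
      exact this)
    exact ⟨n * m, hn.comp hm⟩

end Pool.Agent.CTIso
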