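import Mathlib
import Pool.Agent.CTIso.Basic

set_option autoImplicit false

namespace Pool.Agent.CTIso

section alg
variable {G : Type*} [Group G] {H : Type*} [Group H]

def UU (π : G) : Set G :=
  {φ | φ * φ = 1 ∧ Commute φ π ∧ ∀ ψ, Commute ψ π → Commute φ (ψ * φ * ψ⁻¹)}

def VV (π : G) : Set G := {ψ | ∀ φ ∈ UU π, Commute ψ φ}

def WW (π : G) : Set G := {g | ∀ ψ ∈ VV π, Commute g (ψ * ψ)}

lemma commute_map (Φ : G ≃* H) (a b : G) : Commute (Φ a) (Φ b) ↔ Commute a b := by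
  constructor
  · intro h
    have : Φ (a * b) = Φ (b * a) := by rw [map_mul, map_mul]; exact h
    exact Φ.injective this
  · intro h
    exact h.map Φ

lemma mem_UU_map (Φ : G ≃* H) (π φ : G) : Φ φ ∈ UU (Φ π) ↔ φ ∈ UU π := by
  unfold UU
  simp only [Set.mem_ofPred_eq]
  refine and_congr ?_ (and_congr (commute_map Φ _ _) ?_)
  · rw [← map_mul]; exact map_eq_one_iff Φ Φ.injective
  · constructor
    · intro h ψ hψ
      have := h (Φ ψ) ((commute_map Φ _ _).mpr hψ)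
      rwa [← map_mul, ← map_inv, ← map_mul, commute_map] at this
    · intro h ψ hψ
      obtain ⟨ψ, rfl⟩ := Φ.surjective ψ
      rw [commute_map] at hψ
      have := h ψ hψ
      rwa [← map_mul, ← map_inv, ← map_mul, commute_map]

lemma mem_VV_map (Φ : G ≃* H) (π φ : G) : Φ φ ∈ VV (Φ π) ↔ φ ∈ VV π := by
  unfold VV
  simp only [Set.mem_ofPred_eq]
  constructor
  · intro h ψ hψ
    exact (commute_map Φ _ _).mp (h (Φ ψ) ((mem_UU_map Φ _ _).mpr hψ))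
  · intro h ψ hψ
    obtain ⟨ψ, rfl⟩ := Φ.surjective ψ
    exact (commute_map Φ _ _).mpr (h ψ ((mem_UU_map Φ _ _).mp hψ))

lemma mem_WW_map (Φ : G ≃* H) (π φ : G) : Φ φ ∈ WW (Φ π) ↔ φ ∈ WW π := by
  unfold WW
  simp only [Set.mem_ofPred_eq]
  constructor
  · intro h ψ hψ
    have := h (Φ ψ) ((mem_VV_map Φ _ _).mpr hψ)
    rwa [← map_mul, commute_map] at this
  · intro h ψ hψ
    obtain ⟨ψ, rfl⟩ := Φ.surjective ψ
    have := h ψ ((mem_VV_map Φ _ _).mp hψ)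
    rwa [← map_mul, commute_map]

end alg

variable {P : Set ℕ}

/-- clopen sets: finite unions of residue classes with smooth modulus -/
def Clo (P : Set ℕ) (A : Set ℤ) : Prop := ∃ m, Smooth P m ∧ ∀ n k : ℤ, n + k * m ∈ A ↔ n ∈ A

lemma clo_empty : Clo P ∅ := ⟨1, smooth_one, by simp⟩
lemma clo_univ : Clo P Set.univ := ⟨1, smooth_one, by simp⟩

lemma Clo.compl {A : Set ℤ} (h : Clo P A) : Clo P Aᶜ := by
  obtain ⟨m, hm, h⟩ := h
  exact ⟨m, hm, fun n k => not_congr (h n k)⟩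

lemma Clo.inter {A B : Set ℤ} (hA : Clo P A) (hB : Clo P B) : Clo P (A ∩ B) := by
  obtain ⟨m, hm, hA⟩ := hA
  obtain ⟨m', hm', hB⟩ := hB
  refine ⟨m * m', hm.mul hm', fun n k => and_congr ?_ ?_⟩
  · rw [show n + k * (m * m') = n + (k * m') * m by ring]; exact hA _ _
  · rw [show n + k * (m * m') = n + (k * m) * m' by ring]; exact hB _ _

lemma Clo.union {A B : Set ℤ} (hA : Clo P A) (hB : Clo P B) : Clo P (A ∪ B) := by
  obtain ⟨m, hm, hA⟩ := hA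
  obtain ⟨m', hm', hB⟩ := hB
  refine ⟨m * m', hm.mul hm', fun n k => or_congr ?_ ?_⟩
  · rw [show n + k * (m * m') = n + (k * m') * m by ring]; exact hA _ _
  · rw [show n + k * (m * m') = n + (k * m) * m' by ring]; exact hB _ _

/-- residue classes -/
def cl (r m : ℤ) : Set ℤ := {n | ∃ k, n = r + k * m}

lemma mem_cl {r m n : ℤ} : n ∈ cl r m ↔ ∃ k, n = r + k * m := Iff.rfl

lemma mem_cl' {r m n : ℤ} : n ∈ cl r m ↔ m ∣ n - r := by
  constructor
  · rintro ⟨k, rfl⟩; exact ⟨k, by ring⟩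
  · rintro ⟨k, hk⟩; exact ⟨k, by linear_combination hk⟩

lemma self_mem_cl (r m : ℤ) : r ∈ cl r m := ⟨0, by ring⟩

lemma clo_cl {m : ℤ} (hm : Smooth P m) (r : ℤ) : Clo P (cl r m) := by
  refine ⟨m, hm, fun n k => ?_⟩
  rw [mem_cl', mem_cl', show n + k * m - r = (n - r) + k * m by ring]
  exact (Int.dvd_add_left (Dvd.intro_left k rfl))

lemma clo_preimage {g : Equiv.Perm ℤ} (hg : g ∈ CT P) {A : Set ℤ} (hA : Clo P A) :
    Clo P (g ⁻¹' A) := by
  obtain ⟨n, hn, hA⟩ := hA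
  obtain ⟨m, hm⟩ := exists_table hg
  refine ⟨m * n, hm.1.mul hn, fun z k => ?_⟩
  obtain ⟨m', hm', -, h2, -⟩ := hm.refine hn z
  simp only [Set.mem_preimage]
  rw [h2, show g z + k * (m' * n) = g z + (k * m') * n by ring]
  exact hA _ _

/-- simultaneous local affine description of two elements -/
lemma exists_local2 {g h : Equiv.Perm ℤ} (hg : g ∈ CT P) (hh : h ∈ CT P) (z : ℤ) {K : ℤ}
    (hK : Smooth P K) :
    ∃ M, Smooth P M ∧ K ∣ M ∧
      (∃ M', Smooth P M' ∧ K ∣ M' ∧ z / M = g z / M' ∧ ∀ k, g (z + k*M) = g z + k*M') ∧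
      (∃ M', Smooth P M' ∧ K ∣ M' ∧ z / M = h z / M' ∧ ∀ k, h (z + k*M) = h z + k*M') := by
  obtain ⟨m1, hm1⟩ := exists_table hg
  obtain ⟨m2, hm2⟩ := exists_table hh
  refine ⟨m1 * m2 * K, (hm1.1.mul hm2.1).mul hK, Dvd.intro_left _ rfl, ?_, ?_⟩
  · obtain ⟨m', hm', h1, h2, -⟩ := hm1.refine (hm2.1.mul hK) z
    refine ⟨m' * (m2 * K), hm'.mul (hm2.1.mul hK), ⟨m' * m2, by ring⟩, ?_, ?_⟩
    · rw [← h1]; ring_nf
    · intro k; rw [← h2]; ring_nf
  · obtain ⟨m', hm', h1, h2, -⟩ := hm2.refine (hm1.1.mul hK) z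
    refine ⟨m' * (m1 * K), hm'.mul (hm1.1.mul hK), ⟨m' * m1, by ring⟩, ?_, ?_⟩
    · rw [← h1]; ring_nf
    · intro k; rw [← h2]; ring_nf

lemma exists_local {g : Equiv.Perm ℤ} (hg : g ∈ CT P) (z : ℤ) {K : ℤ}
    (hK : Smooth P K) :
    ∃ M, Smooth P M ∧ K ∣ M ∧
      (∃ M', Smooth P M' ∧ K ∣ M' ∧ z / M = g z / M' ∧ ∀ k, g (z + k*M) = g z + k*M') := by
  obtain ⟨M, h1, h2, h3, -⟩ := exists_local2 hg hg z hK
  exact ⟨M, h1, h2, h3⟩

/-- shifting a point inside its block -/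
lemma exists_shift {N : ℤ} (hN : 0 < N) (z s : ℤ) : ∃ w, w / N = z / N ∧ N ∣ w - (z + s) := by
  refine ⟨(z + s) % N + (z / N) * N, ?_, ?_⟩
  · exact ediv_of_class (Int.emod_nonneg _ hN.ne') (Int.emod_lt_of_pos _ hN)
  · have := Int.emod_add_mul_ediv (z + s) N
    exact ⟨z / N - (z + s) / N, by linear_combination this⟩

/-- an element supported in a residue class whose square moves the base point -/
lemma exists_rot {M : ℤ} (hM : Smooth P M) (z : ℤ) :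
    ∃ ψ ∈ CT P, (∀ n, n ∉ cl z M → ψ n = n) ∧ ψ (ψ z) ≠ z := by
  have h4 : Smooth P (4 * M) := by
    have := (smooth_two (P := P)).mul (smooth_two.mul hM)
    rwa [show (2:ℤ) * (2 * M) = 4 * M by ring] at this
  obtain ⟨w1, hw1, d1⟩ := exists_shift h4.pos z M
  obtain ⟨w2, hw2, d2⟩ := exists_shift h4.pos z (2 * M)
  obtain ⟨c1, hc1⟩ := d1
  obtain ⟨c2, hc2⟩ := d2
  have hMpos := hM.pos
  have key : ∀ (c i : ℤ), i = 1 ∨ i = 2 → i * M ≠ c * (4 * M) := by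
    intro c i hi h
    have : i = 4 * c := by
      have : M * (i - 4 * c) = 0 := by linear_combination h
      rcases mul_eq_zero.mp this with h | h
      · exact absurd h hM.ne_zero
      · linarith
    omega
  have n1 : ∀ j k : ℤ, z + j * (4 * M) ≠ w1 + k * (4 * M) := by
    intro j k h
    exact key (j - k - c1) 1 (Or.inl rfl) (by linear_combination -h - hc1)
  have n2 : ∀ j k : ℤ, w1 + j * (4 * M) ≠ w2 + k * (4 * M) := by
    intro j k h
    exact key (j - k + c1 - c2) 1 (Or.inl rfl) (by linear_combination hc1 - h - hc2)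
  have n3 : ∀ j k : ℤ, z + j * (4 * M) ≠ w2 + k * (4 * M) := by
    intro j k h
    exact key (j - k - c2) 2 (Or.inr rfl) (by linear_combination -h - hc2)
  obtain ⟨σ1, hσ1, a1, b1, e1⟩ := exists_swap' (P := P) h4 h4 hw1.symm n1
  obtain ⟨σ2, hσ2, a2, b2, e2⟩ := exists_swap' (P := P) h4 h4 (hw1.trans hw2.symm) n2
  refine ⟨σ1 * σ2, mul_mem hσ1 hσ2, ?_, ?_⟩
  · intro n hn
    have hz : ∀ k, n ≠ z + k * (4 * M) := fun k hk => hn ⟨k * 4, by rw [hk]; ring⟩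
    have h1 : ∀ k, n ≠ w1 + k * (4 * M) := fun k hk => hn ⟨1 + 4 * c1 + k * 4, by
      rw [hk]; linear_combination hc1⟩
    have h2 : ∀ k, n ≠ w2 + k * (4 * M) := fun k hk => hn ⟨2 + 4 * c2 + k * 4, by
      rw [hk]; linear_combination hc2⟩
    simp only [Equiv.Perm.coe_mul, Function.comp]
    rw [e2 n h1 h2, e1 n hz h1]
  · simp only [Equiv.Perm.coe_mul, Function.comp]
    have s1 : σ2 z = z := e2 z (fun k => by have := n1 0 k; simpa using this)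
      (fun k => by have := n3 0 k; simpa using this)
    have s2 : σ1 z = w1 := by have := a1 0; simpa using this
    have s3 : σ2 w1 = w2 := by have := a2 0; simpa using this
    have s4 : σ1 w2 = w2 := e1 w2 (fun k => by have := (n3 k 0).symm; simpa using this)
      (fun k => by have := (n2 k 0).symm; simpa using this)
    rw [s1, s2, s3, s4]
    have := (n3 0 0).symm
    simpa using this

lemma clo_supp {π : Equiv.Perm ℤ} (hπ : π ∈ CT P) (h2 : ∀ n, π (π n) = n) :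
    Clo P {n | π n ≠ n} := by
  obtain ⟨m, hm⟩ := exists_table hπ
  have key : ∀ z, π z = z → ∀ k, π (z + k * m) = z + k * m := by
    intro z hz k
    obtain ⟨m', hm', -, hk⟩ := hm.2 z
    rw [hz] at hk
    have e1 := h2 (z + m * m)
    rw [hk m, show z + m * m' = z + m' * m by ring, hk m'] at e1
    have : (m' - m) * (m' + m) = 0 := by linear_combination e1
    rcases mul_eq_zero.mp this with h | h
    · rw [hk k]
      have : m' = m := by linarith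
      rw [this]
    · have := hm.1.pos; have := hm'.pos; linarith
  refine ⟨m, hm.1, fun n k => not_congr ⟨fun h => ?_, fun h => key n h k⟩⟩
  have := key _ h (-k)
  rwa [show n + k * m + -k * m = n by ring] at this

/-- disjoint supports commute -/
lemma commute_of_disj {g h : Equiv.Perm ℤ} (D : Set ℤ) (hg : ∀ n, n ∉ D → g n = n)
    (hh : ∀ n ∈ D, h n = n) : Commute g h := by
  apply Equiv.Perm.Disjoint.commute
  intro n
  by_cases hn : n ∈ D
  · exact Or.inr (hh n hn)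
  · exact Or.inl (hg n hn)

lemma maps_to_of_supp {ψ : Equiv.Perm ℤ} {D : Set ℤ} (hψ : ∀ n, n ∉ D → ψ n = n) {x : ℤ}
    (hx : x ∈ D) : ψ x ∈ D := by
  by_contra h
  have h1 := hψ _ h
  have h2 := ψ.injective h1
  rw [h2] at h
  exact h hx

lemma pinv_self (ψ : Equiv.Perm ℤ) (x : ℤ) : ψ⁻¹ (ψ x) = x := ψ.symm_apply_apply x
lemma self_pinv (ψ : Equiv.Perm ℤ) (x : ℤ) : ψ (ψ⁻¹ x) = x := ψ.apply_symm_apply x

lemma sq_of_commute {φ ψ : Equiv.Perm ℤ} (hφ : ∀ n, φ (φ n) = n) (D : Set ℤ)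
    (hψ : ∀ n, n ∉ D → ψ n = n) (hD : ∀ n ∈ D, φ n ∉ D) (hc : Commute φ (ψ * φ * ψ⁻¹))
    {x : ℤ} (hx : x ∈ D) : ψ (ψ x) = x := by
  have h1 : (φ * (ψ * φ * ψ⁻¹)) (ψ x) = ((ψ * φ * ψ⁻¹) * φ) (ψ x) := by rw [hc]
  simp only [Equiv.Perm.coe_mul, Function.comp, pinv_self] at h1
  have hy : ψ x ∈ D := maps_to_of_supp hψ hx
  rw [hψ _ (hD x hx), hφ] at h1
  have h3 : ψ⁻¹ (φ (ψ x)) = φ (ψ x) := by
    rw [Equiv.Perm.inv_eq_iff_eq]
    exact (hψ _ (hD _ hy)).symm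
  rw [h3, hφ] at h1
  exact h1.symm

section main

variable {π : ↥(CT P)}

lemma sq_apply {π : ↥(CT P)} (h : π * π = 1) (n : ℤ) : (π : Equiv.Perm ℤ) ((π : Equiv.Perm ℤ) n) = n := by
  have : ((π * π : ↥(CT P)) : Equiv.Perm ℤ) n = n := by rw [h]; rfl
  simpa using this

lemma coe_commute {a b : ↥(CT P)} : Commute a b ↔ Commute (a : Equiv.Perm ℤ) (b : Equiv.Perm ℤ) := by
  constructor
  · intro h; exact h.map (Subgroup.subtype _)
  · intro h; exact Subtype.ext h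

lemma UU_supp (hπ : π * π = 1) {φ : ↥(CT P)} (hφ : φ ∈ UU π) {z : ℤ}
    (hz : (π : Equiv.Perm ℤ) z = z) : (φ : Equiv.Perm ℤ) z = z := by
  by_contra hne
  obtain ⟨h1, h2, h3⟩ := hφ
  obtain ⟨K1, hK1, hper⟩ := clo_supp π.2 (sq_apply hπ)
  obtain ⟨j, hj⟩ := exists_pow_two_not_dvd (sub_ne_zero.mpr hne)
  obtain ⟨M, hM, hKM, M', hM', hKM', -, hk⟩ := exists_local φ.2 z (hK1.mul (smooth_two.pow j))
  obtain ⟨ψ, hψ, hψs, hψ2⟩ := exists_rot hM z
  apply hψ2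
  have hfix : ∀ n ∈ cl z M, (π : Equiv.Perm ℤ) n = n := by
    rintro n ⟨k, rfl⟩
    by_contra hcon
    obtain ⟨c, hc⟩ := (Dvd.intro _ rfl : K1 ∣ K1 * 2^j).trans hKM
    have := (hper z (k * c)).mp (by
      simp only [Set.mem_ofPred_eq]
      rwa [show z + k * c * K1 = z + k * M by rw [hc]; ring])
    exact this hz
  have hcomm : Commute (⟨ψ, hψ⟩ : ↥(CT P)) π := by
    rw [coe_commute]
    exact commute_of_disj (cl z M) hψs hfix
  have h4 := h3 _ hcomm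
  rw [coe_commute] at h4
  refine sq_of_commute (φ := (φ : Equiv.Perm ℤ)) (sq_apply h1) (cl z M) hψs ?_ h4 (self_mem_cl z M)
  rintro n ⟨k, rfl⟩ ⟨k', hk'⟩
  rw [hk] at hk'
  apply hj
  have d1 : (2:ℤ)^j ∣ M := (Dvd.intro_left _ rfl : (2:ℤ)^j ∣ K1 * 2^j).trans hKM
  have d2 : (2:ℤ)^j ∣ M' := (Dvd.intro_left _ rfl : (2:ℤ)^j ∣ K1 * 2^j).trans hKM'
  have : (φ : Equiv.Perm ℤ) z - z = k' * M - k * M' := by linear_combination hk'
  rw [this]
  exact dvd_sub (d1.mul_left _) (d2.mul_left _)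

lemma UU_orbit (hπ : π * π = 1) {φ : ↥(CT P)} (hφ : φ ∈ UU π) (z : ℤ) :
    (φ : Equiv.Perm ℤ) z = z ∨ (φ : Equiv.Perm ℤ) z = (π : Equiv.Perm ℤ) z := by
  by_contra hcon
  push Not at hcon
  obtain ⟨hn1, hn2⟩ := hcon
  have hn3 : (π : Equiv.Perm ℤ) z ≠ z := fun h => hn1 (UU_supp hπ hφ h)
  obtain ⟨h1, h2, h3⟩ := hφ
  obtain ⟨j1, hj1⟩ := exists_pow_two_not_dvd (sub_ne_zero.mpr hn1)
  obtain ⟨j2, hj2⟩ := exists_pow_two_not_dvd (sub_ne_zero.mpr hn2)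
  obtain ⟨j3, hj3⟩ := exists_pow_two_not_dvd (sub_ne_zero.mpr hn3)
  obtain ⟨K, hKdef⟩ : ∃ K : ℤ, K = 2^(j1+j2+j3) := ⟨_, rfl⟩
  have hK : Smooth P K := hKdef ▸ smooth_two.pow _
  have k1 : ¬ K ∣ (φ : Equiv.Perm ℤ) z - z := fun h => hj1
    ((hKdef ▸ pow_dvd_pow 2 (by omega) : (2:ℤ)^j1 ∣ K).trans h)
  have k2 : ¬ K ∣ (φ : Equiv.Perm ℤ) z - (π : Equiv.Perm ℤ) z := fun h => hj2
    ((hKdef ▸ pow_dvd_pow 2 (by omega) : (2:ℤ)^j2 ∣ K).trans h)
  have k3 : ¬ K ∣ (π : Equiv.Perm ℤ) z - z := fun h => hj3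
    ((hKdef ▸ pow_dvd_pow 2 (by omega) : (2:ℤ)^j3 ∣ K).trans h)
  obtain ⟨M, hM, hKM, ⟨Mφ, hMφ, hKMφ, -, hkφ⟩, ⟨Mπ, hMπ, hKMπ, -, hkπ⟩⟩ :=
    exists_local2 φ.2 π.2 z hK
  obtain ⟨ψ0, hψ0, hψ0s, hψ02⟩ := exists_rot hM z
  have hππ := sq_apply hπ
  have hφφ := sq_apply h1
  have hφπ : ∀ n, (φ : Equiv.Perm ℤ) ((π : Equiv.Perm ℤ) n) = (π : Equiv.Perm ℤ) ((φ : Equiv.Perm ℤ) n) := by
    intro n
    have := congrArg (fun f : Equiv.Perm ℤ => f n) (coe_commute.mp h2)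
    simpa using this
  -- elements of the class are congruent to z
  have cB : ∀ n ∈ cl z M, K ∣ n - z := by
    rintro n ⟨k, rfl⟩
    rw [show z + k * M - z = k * M by ring]
    exact hKM.mul_left _
  have cφB : ∀ n ∈ cl z M, K ∣ (φ : Equiv.Perm ℤ) n - (φ : Equiv.Perm ℤ) z := by
    rintro n ⟨k, rfl⟩
    rw [hkφ, show (φ : Equiv.Perm ℤ) z + k * Mφ - (φ : Equiv.Perm ℤ) z = k * Mφ by ring]
    exact hKMφ.mul_left _
  have cπB : ∀ n ∈ cl z M, K ∣ (π : Equiv.Perm ℤ) n - (π : Equiv.Perm ℤ) z := by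
    rintro n ⟨k, rfl⟩
    rw [hkπ, show (π : Equiv.Perm ℤ) z + k * Mπ - (π : Equiv.Perm ℤ) z = k * Mπ by ring]
    exact hKMπ.mul_left _
  have cπB' : ∀ n, (π : Equiv.Perm ℤ) n ∈ cl z M → K ∣ n - (π : Equiv.Perm ℤ) z := by
    intro n hn
    have := cπB _ hn
    rwa [hππ] at this
  have disjB : ∀ n ∈ cl z M, (π : Equiv.Perm ℤ) n ∉ cl z M := by
    intro n hn hn'
    apply k3
    have a1 := cB _ hn
    have a2 := cπB' _ hn'
    have : (π : Equiv.Perm ℤ) z - z = (n - z) - (n - (π : Equiv.Perm ℤ) z) := by ring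
    rw [this]; exact dvd_sub a1 a2
  set ψ1 : Equiv.Perm ℤ := (π : Equiv.Perm ℤ) * ψ0 * (π : Equiv.Perm ℤ) with hψ1
  have hψ1s : ∀ n, (π : Equiv.Perm ℤ) n ∉ cl z M → ψ1 n = n := by
    intro n hn
    simp only [hψ1, Equiv.Perm.coe_mul, Function.comp]
    rw [hψ0s _ hn, hππ]
  have hψ1mem : ψ1 ∈ CT P := mul_mem (mul_mem π.2 hψ0) π.2
  have hcomm01 : Commute ψ0 ψ1 := by
    apply commute_of_disj (cl z M) hψ0s
    intro n hn
    exact hψ1s n (disjB n hn)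
  set D : Set ℤ := {n | n ∈ cl z M ∨ (π : Equiv.Perm ℤ) n ∈ cl z M} with hD
  have hψmem : ψ0 * ψ1 ∈ CT P := mul_mem hψ0 hψ1mem
  have hψcomm : Commute (⟨ψ0 * ψ1, hψmem⟩ : ↥(CT P)) π := by
    rw [coe_commute]
    show ψ0 * ψ1 * (π : Equiv.Perm ℤ) = (π : Equiv.Perm ℤ) * (ψ0 * ψ1)
    have e0 : (π : Equiv.Perm ℤ) * (π : Equiv.Perm ℤ) = 1 := by
      apply Equiv.ext
      intro n
      exact hππ n
    have e1 : (π : Equiv.Perm ℤ) * ψ0 = ψ1 * (π : Equiv.Perm ℤ) := by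
      rw [hψ1, mul_assoc _ (π : Equiv.Perm ℤ) (π : Equiv.Perm ℤ), e0, mul_one]
    have e2 : (π : Equiv.Perm ℤ) * ψ1 = ψ0 * (π : Equiv.Perm ℤ) := by
      rw [hψ1, ← mul_assoc, ← mul_assoc, e0, one_mul]
    rw [← mul_assoc (π : Equiv.Perm ℤ), e1, mul_assoc ψ1, e2, ← mul_assoc ψ1, hcomm01.eq]
  have hfixD : ∀ n, n ∉ D → (ψ0 * ψ1) n = n := by
    intro n hn
    rw [hD, Set.mem_ofPred_eq, not_or] at hn
    simp only [Equiv.Perm.coe_mul, Function.comp]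
    rw [hψ1s _ hn.2, hψ0s _ hn.1]
  have hmove : ∀ n ∈ D, (φ : Equiv.Perm ℤ) n ∉ D := by
    have main1 : ∀ n ∈ cl z M, (φ : Equiv.Perm ℤ) n ∉ D := by
      rintro n hn (h | h)
      · apply k1
        have a1 := cφB _ hn
        have a2 := cB _ h
        have : (φ : Equiv.Perm ℤ) z - z = ((φ : Equiv.Perm ℤ) n - z) - ((φ : Equiv.Perm ℤ) n - (φ : Equiv.Perm ℤ) z) := by ring
        rw [this]; exact dvd_sub a2 a1
      · apply k2
        have a1 := cφB _ hn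
        have a2 := cπB' _ h
        have : (φ : Equiv.Perm ℤ) z - (π : Equiv.Perm ℤ) z = ((φ : Equiv.Perm ℤ) n - (π : Equiv.Perm ℤ) z) - ((φ : Equiv.Perm ℤ) n - (φ : Equiv.Perm ℤ) z) := by ring
        rw [this]; exact dvd_sub a2 a1
    rintro n (hn | hn)
    · exact main1 n hn
    · intro hcon
      have := main1 _ hn
      apply this
      rw [hφπ]
      rcases hcon with h | h
      · right; rw [hππ]; exact h
      · left; exact h
  have h4 := h3 _ hψcomm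
  rw [coe_commute] at h4
  have h5 := sq_of_commute (φ := (φ : Equiv.Perm ℤ)) hφφ D hfixD hmove h4 (x := z)
    (Or.inl (self_mem_cl z M))
  apply hψ02
  have e0 : ∀ n ∈ cl z M, (ψ0 * ψ1) n = ψ0 n := by
    intro n hn
    simp only [Equiv.Perm.coe_mul, Function.comp]
    rw [hψ1s _ (disjB n hn)]
  change (ψ0 * ψ1) ((ψ0 * ψ1) z) = z at h5
  rw [e0 z (self_mem_cl z M), e0 _ (maps_to_of_supp hψ0s (self_mem_cl z M))] at h5
  exact h5

/-- restriction of an involution to an invariant set lies in `UU` -/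
lemma restr_mem_UU (hπ : π * π = 1) (τ : ↥(CT P)) (b : Set ℤ)
    (hb : ∀ n, (π : Equiv.Perm ℤ) n ∈ b ↔ n ∈ b)
    (h1 : ∀ n ∈ b, (τ : Equiv.Perm ℤ) n = (π : Equiv.Perm ℤ) n)
    (h2 : ∀ n, n ∉ b → (τ : Equiv.Perm ℤ) n = n) : τ ∈ UU π := by
  have hππ := sq_apply hπ
  refine ⟨?_, ?_, ?_⟩
  · apply Subtype.ext
    ext n
    simp only [Subgroup.coe_mul, Equiv.Perm.coe_mul, Function.comp, Subgroup.coe_one,
      Equiv.Perm.coe_one, id]
    by_cases hn : n ∈ b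
    · rw [h1 n hn, h1 _ ((hb n).mpr hn), hππ]
    · rw [h2 n hn, h2 n hn]
  · rw [coe_commute]
    ext n
    simp only [Equiv.Perm.coe_mul, Function.comp]
    by_cases hn : n ∈ b
    · rw [h1 n hn, h1 _ ((hb n).mpr hn)]
    · rw [h2 n hn, h2 _ (fun h => hn ((hb n).mp h))]
  · intro ψ hψ
    rw [coe_commute] at hψ ⊢
    have hψπ : ∀ n, (ψ : Equiv.Perm ℤ) ((π : Equiv.Perm ℤ) n) = (π : Equiv.Perm ℤ) ((ψ : Equiv.Perm ℤ) n) := by
      intro n
      have := congrArg (fun f : Equiv.Perm ℤ => f n) hψ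
      simpa using this
    have hψπ' : ∀ n, (ψ : Equiv.Perm ℤ)⁻¹ ((π : Equiv.Perm ℤ) n) = (π : Equiv.Perm ℤ) ((ψ : Equiv.Perm ℤ)⁻¹ n) := by
      intro n
      rw [Equiv.Perm.inv_eq_iff_eq, hψπ, self_pinv]
    have c1 : ∀ n, (ψ : Equiv.Perm ℤ)⁻¹ n ∈ b →
        ((ψ : Equiv.Perm ℤ) * τ * (ψ : Equiv.Perm ℤ)⁻¹) n = (π : Equiv.Perm ℤ) n := by
      intro n hn
      simp only [Equiv.Perm.coe_mul, Function.comp]
      rw [h1 _ hn, hψπ]
      simp
    have c2 : ∀ n, (ψ : Equiv.Perm ℤ)⁻¹ n ∉ b →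
        ((ψ : Equiv.Perm ℤ) * τ * (ψ : Equiv.Perm ℤ)⁻¹) n = n := by
      intro n hn
      simp only [Equiv.Perm.coe_mul, Function.comp]
      rw [h2 _ hn]
      simp
    have hb' : ∀ n, (ψ : Equiv.Perm ℤ)⁻¹ ((π : Equiv.Perm ℤ) n) ∈ b ↔ (ψ : Equiv.Perm ℤ)⁻¹ n ∈ b := by
      intro n
      rw [hψπ', hb]
    have e : ((ψ * τ * ψ⁻¹ : ↥(CT P)) : Equiv.Perm ℤ) = (ψ : Equiv.Perm ℤ) * τ * (ψ : Equiv.Perm ℤ)⁻¹ := by
      simp
    rw [e]
    apply Equiv.ext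
    intro n
    show (τ : Equiv.Perm ℤ) (((ψ : Equiv.Perm ℤ) * τ * (ψ : Equiv.Perm ℤ)⁻¹) n) =
      ((ψ : Equiv.Perm ℤ) * τ * (ψ : Equiv.Perm ℤ)⁻¹) ((τ : Equiv.Perm ℤ) n)
    by_cases hn : n ∈ b <;> by_cases hn' : (ψ : Equiv.Perm ℤ)⁻¹ n ∈ b
    · rw [c1 n hn', h1 n hn, h1 _ ((hb n).mpr hn), c1 _ ((hb' n).mpr hn')]
    · rw [c2 n hn', h1 n hn, c2 _ (fun h => hn' ((hb' n).mp h))]
    · rw [c1 n hn', h2 n hn, h2 _ (fun h => hn ((hb n).mp h)), c1 n hn']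
    · rw [c2 n hn', h2 n hn, c2 n hn']

lemma self_mem_UU (hπ : π * π = 1) : π ∈ UU π :=
  restr_mem_UU hπ π Set.univ (by simp) (by simp) (by simp)

lemma VV_sq (hπ : π * π = 1) {ψ : ↥(CT P)} (hψ : ψ ∈ VV π) {z : ℤ}
    (hz : (π : Equiv.Perm ℤ) z ≠ z) : (ψ : Equiv.Perm ℤ) ((ψ : Equiv.Perm ℤ) z) = z := by
  have hππ := sq_apply hπ
  have hψπ : ∀ n, (ψ : Equiv.Perm ℤ) ((π : Equiv.Perm ℤ) n) = (π : Equiv.Perm ℤ) ((ψ : Equiv.Perm ℤ) n) := by
    intro n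
    have := congrArg (fun f : Equiv.Perm ℤ => f n) (coe_commute.mp (hψ π (self_mem_UU hπ)))
    simpa using this
  have key : (ψ : Equiv.Perm ℤ) z = z ∨ (ψ : Equiv.Perm ℤ) z = (π : Equiv.Perm ℤ) z := by
    by_contra hcon
    push Not at hcon
    obtain ⟨hn1, hn2⟩ := hcon
    obtain ⟨j1, hj1⟩ := exists_pow_two_not_dvd (sub_ne_zero.mpr hn1)
    obtain ⟨j2, hj2⟩ := exists_pow_two_not_dvd (sub_ne_zero.mpr hn2)
    obtain ⟨j3, hj3⟩ := exists_pow_two_not_dvd (sub_ne_zero.mpr hz)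
    obtain ⟨K, hKdef⟩ : ∃ K : ℤ, K = 2^(j1+j2+j3) := ⟨_, rfl⟩
    have hK : Smooth P K := hKdef ▸ smooth_two.pow _
    have k1 : ¬ K ∣ (ψ : Equiv.Perm ℤ) z - z := fun h => hj1
      ((hKdef ▸ pow_dvd_pow 2 (by omega) : (2:ℤ)^j1 ∣ K).trans h)
    have k2 : ¬ K ∣ (ψ : Equiv.Perm ℤ) z - (π : Equiv.Perm ℤ) z := fun h => hj2
      ((hKdef ▸ pow_dvd_pow 2 (by omega) : (2:ℤ)^j2 ∣ K).trans h)
    have k3 : ¬ K ∣ (π : Equiv.Perm ℤ) z - z := fun h => hj3
      ((hKdef ▸ pow_dvd_pow 2 (by omega) : (2:ℤ)^j3 ∣ K).trans h)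
    obtain ⟨M, hM, hKM, Mπ, hMπ, hKMπ, hidx, hkπ⟩ := exists_local π.2 z hK
    obtain ⟨τ, hτ, t1, t2, t3⟩ := exists_swap' (P := P) hM hMπ hidx (by
      intro j k h
      apply k3
      have : (π : Equiv.Perm ℤ) z - z = j * M - k * Mπ := by linear_combination -h
      rw [this]
      exact dvd_sub (hKM.mul_left _) (hKMπ.mul_left _))
    have hτU : (⟨τ, hτ⟩ : ↥(CT P)) ∈ UU π := by
      apply restr_mem_UU hπ _ {n | n ∈ cl z M ∨ (π : Equiv.Perm ℤ) n ∈ cl z M}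
      · intro n
        simp only [Set.mem_ofPred_eq, hππ]
        tauto
      · rintro n (⟨k, rfl⟩ | ⟨k, hk⟩)
        · show τ _ = _
          rw [t1, hkπ]
        · show τ _ = _
          have : n = (π : Equiv.Perm ℤ) z + k * Mπ := by
            rw [← hkπ, ← hk, hππ]
          rw [hk, this, t2]
      · intro n hn
        simp only [Set.mem_ofPred_eq, not_or] at hn
        apply t3
        · intro k hk
          exact hn.1 ⟨k, hk⟩
        · intro k hk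
          apply hn.2
          rw [hk, ← hkπ, hππ]
          exact ⟨k, rfl⟩
    have hc := hψ _ hτU
    rw [coe_commute] at hc
    have e1 : (ψ : Equiv.Perm ℤ) (τ z) = τ ((ψ : Equiv.Perm ℤ) z) := by
      have := congrArg (fun f : Equiv.Perm ℤ => f z) hc
      simpa using this
    have e2 : τ z = (π : Equiv.Perm ℤ) z := by have := t1 0; simpa using this
    have e3 : τ ((ψ : Equiv.Perm ℤ) z) = (ψ : Equiv.Perm ℤ) z := by
      apply t3
      · intro k hk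
        apply k1
        have : (ψ : Equiv.Perm ℤ) z - z = k * M := by linear_combination hk
        rw [this]
        exact hKM.mul_left _
      · intro k hk
        apply k2
        have : (ψ : Equiv.Perm ℤ) z - (π : Equiv.Perm ℤ) z = k * Mπ := by linear_combination hk
        rw [this]
        exact hKMπ.mul_left _
    rw [e2, e3] at e1
    exact hz ((ψ : Equiv.Perm ℤ).injective e1)
  rcases key with h | h
  · rw [h, h]
  · rw [h, hψπ, h, hππ]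

/-- algebraic description of rigid stabilisers of supports of involutions -/
theorem mem_WW (hπ : π * π = 1) (g : ↥(CT P)) :
    g ∈ WW π ↔ ∀ n : ℤ, (π : Equiv.Perm ℤ) n = n → (g : Equiv.Perm ℤ) n = n := by
  have hππ := sq_apply hπ
  constructor
  · intro hg z hz
    by_contra hne
    obtain ⟨K1, hK1, hper⟩ := clo_supp π.2 hππ
    obtain ⟨j, hj⟩ := exists_pow_two_not_dvd (sub_ne_zero.mpr hne)
    obtain ⟨M, hM, hKM, M', hM', hKM', -, hk⟩ := exists_local g.2 z (hK1.mul (smooth_two.pow j))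
    obtain ⟨ψ, hψ, hψs, hψ2⟩ := exists_rot hM z
    have hfix : ∀ n ∈ cl z M, (π : Equiv.Perm ℤ) n = n := by
      rintro n ⟨k, rfl⟩
      by_contra hcon
      obtain ⟨c, hc⟩ := (Dvd.intro _ rfl : K1 ∣ K1 * 2^j).trans hKM
      have := (hper z (k * c)).mp (by
        simp only [Set.mem_ofPred_eq]
        rwa [show z + k * c * K1 = z + k * M by rw [hc]; ring])
      exact this hz
    have hψV : (⟨ψ, hψ⟩ : ↥(CT P)) ∈ VV π := by
      intro φ hφ
      rw [coe_commute]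
      apply commute_of_disj (cl z M) hψs
      intro n hn
      exact UU_supp hπ hφ (hfix n hn)
    have hc := hg _ hψV
    rw [coe_commute] at hc
    have e1 : (g : Equiv.Perm ℤ) (ψ (ψ z)) = ψ (ψ ((g : Equiv.Perm ℤ) z)) := by
      have := congrArg (fun f : Equiv.Perm ℤ => f z) hc
      simpa using this
    have e2 : ψ ((g : Equiv.Perm ℤ) z) = (g : Equiv.Perm ℤ) z := by
      apply hψs
      rintro ⟨k, hk'⟩
      apply hj
      have : (g : Equiv.Perm ℤ) z - z = k * M := by linear_combination hk'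
      rw [this]
      exact ((Dvd.intro_left _ rfl : (2:ℤ)^j ∣ K1 * 2^j).trans hKM).mul_left _
    rw [e2, e2] at e1
    exact hψ2 ((g : Equiv.Perm ℤ).injective e1)
  · intro hg ψ hψ
    rw [coe_commute]
    apply commute_of_disj {n | (π : Equiv.Perm ℤ) n ≠ n}
    · intro n hn
      simp only [Set.mem_ofPred_eq, not_not] at hn
      exact hg n hn
    · intro n hn
      have := VV_sq hπ hψ hn
      simpa using this

end main

end Pool.Agent.CTIso
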