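import Mathlib
import Pool.Agent.CTIso.Alg

set_option autoImplicit false

namespace Pool.Agent.CTIso

variable {P Q : Set ℕ}

lemma emod_of_class {r m k : ℤ} (hr : 0 ≤ r) (hr' : r < m) : (r + k * m) % m = r := by
  rw [Int.add_mul_emod_self_right, Int.emod_eq_of_lt hr hr']

lemma exists_flip {m : ℤ} (hm : Smooth P m) (S : Finset ℤ) (hS : ∀ r ∈ S, 0 ≤ r ∧ r < m) :
    ∃ π ∈ CT P, ∀ n, π n = if n % m ∈ S then (if n % (2*m) < m then n + m else n - m) else n := by
  classical
  induction S using Finset.induction_on with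
  | empty => exact ⟨1, one_mem _, by simp⟩
  | insert r S hr ih =>
    obtain ⟨π, hπ, hf⟩ := ih (fun r' hr' => hS r' (Finset.mem_insert_of_mem hr'))
    obtain ⟨hr0, hrm⟩ := hS r (Finset.mem_insert_self r S)
    have h2m : Smooth P (2*m) := smooth_two.mul hm
    have hmp := hm.pos
    obtain ⟨τ, hτ, t1, t2, t3⟩ := exists_swap (P := P) (r1 := r) (r2 := r + m) h2m h2m hr0
      (by linarith) (by linarith) (by linarith) (by
        intro j k h
        have : m * (2 * (j - k) - 1) = 0 := by linear_combination h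
        rcases mul_eq_zero.mp this with h | h
        · exact hmp.ne' h
        · omega)
    -- evaluation of τ
    have hτf : ∀ n, τ n = if n % m = r then (if n % (2*m) < m then n + m else n - m) else n := by
      intro n
      by_cases h1 : ∃ k, n = r + k * (2*m)
      · obtain ⟨k, rfl⟩ := h1
        have e1 : (r + k * (2*m)) % m = r := by
          rw [show r + k * (2*m) = r + (k * 2) * m by ring, emod_of_class hr0 hrm]
        have e2 : (r + k * (2*m)) % (2*m) = r := emod_of_class hr0 (by linarith)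
        rw [if_pos e1, e2, if_pos hrm, t1]; ring
      · by_cases h2 : ∃ k, n = r + m + k * (2*m)
        · obtain ⟨k, rfl⟩ := h2
          have e1 : (r + m + k * (2*m)) % m = r := by
            rw [show r + m + k * (2*m) = r + (k * 2 + 1) * m by ring, emod_of_class hr0 hrm]
          have e2 : (r + m + k * (2*m)) % (2*m) = r + m := emod_of_class (by linarith) (by linarith)
          rw [if_pos e1, e2, if_neg (by linarith), t2]; ring
        · push Not at h1 h2
          rw [t3 n h1 h2, if_neg]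
          intro hcon
          have e := Int.emod_add_mul_ediv n m
          rw [hcon] at e
          rcases Int.even_or_odd' (n / m) with ⟨c, hc | hc⟩
          · apply h1 c; rw [← e, hc]; ring
          · apply h2 c; rw [← e, hc]; ring
    refine ⟨τ * π, mul_mem hτ hπ, fun n => ?_⟩
    simp only [Equiv.Perm.coe_mul, Function.comp, Finset.mem_insert]
    by_cases h1 : n % m ∈ S
    · have hne : n % m ≠ r := fun h => hr (h ▸ h1)
      rw [hf, if_pos h1, if_pos (Or.inr h1)]
      have : ∀ x, x % m = n % m → τ x = x := by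
        intro x hx
        rw [hτf, if_neg (by rw [hx]; exact hne)]
      apply this
      split_ifs
      · exact Int.add_emod_right n m
      · exact Int.sub_emod_right n m
    · rw [hf, if_neg h1, hτf]
      by_cases h2 : n % m = r
      · rw [if_pos h2, if_pos (Or.inl h2)]
      · rw [if_neg h2, if_neg (by tauto)]

/-- every clopen set is the support of an involution -/
lemma exists_invol {A : Set ℤ} (hA : Clo P A) :
    ∃ π : ↥(CT P), π * π = 1 ∧ ∀ n, (π : Equiv.Perm ℤ) n ≠ n ↔ n ∈ A := by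
  classical
  obtain ⟨m, hm, hper⟩ := hA
  have hmp := hm.pos
  have h2mp : 0 < 2 * m := by linarith
  obtain ⟨π, hπ, hf⟩ := exists_flip hm ((Finset.Ico 0 m).filter (fun r => r ∈ A)) (by
    intro r hr
    simp only [Finset.mem_filter, Finset.mem_Ico] at hr
    exact hr.1)
  have hmem : ∀ n, n % m ∈ ((Finset.Ico 0 m).filter (fun r => r ∈ A)) ↔ n ∈ A := by
    intro n
    simp only [Finset.mem_filter, Finset.mem_Ico]
    have e := Int.emod_add_mul_ediv n m
    have := hper (n % m) (n / m)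
    rw [show n % m + n / m * m = n by linear_combination e] at this
    rw [this]
    exact ⟨fun h => h.2, fun h => ⟨⟨Int.emod_nonneg _ hmp.ne', Int.emod_lt_of_pos _ hmp⟩, h⟩⟩
  have hf' : ∀ n, π n = if n ∈ A then (if n % (2*m) < m then n + m else n - m) else n := by
    intro n
    rw [hf]
    simp only [hmem]
  have hAadd : ∀ n, n + m ∈ A ↔ n ∈ A := fun n => by
    have := hper n 1
    rwa [one_mul] at this
  have hAsub : ∀ n, n - m ∈ A ↔ n ∈ A := fun n => by
    have := hper n (-1)
    rwa [neg_one_mul] at this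
  refine ⟨⟨π, hπ⟩, ?_, ?_⟩
  · apply Subtype.ext
    apply Equiv.ext
    intro n
    show π (π n) = n
    by_cases hn : n ∈ A
    · have e := Int.emod_add_mul_ediv n (2*m)
      have q0 := Int.emod_nonneg n h2mp.ne'
      have q1 := Int.emod_lt_of_pos n h2mp
      by_cases hlt : n % (2*m) < m
      · have e2 : π n = n + m := by rw [hf', if_pos hn, if_pos hlt]
        have e3 : (n + m) % (2*m) = n % (2*m) + m := by
          have : n + m = (n % (2*m) + m) + (n / (2*m)) * (2*m) := by linear_combination -e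
          conv_lhs => rw [this]
          exact emod_of_class (by linarith) (by linarith)
        rw [e2, hf', if_pos ((hAadd n).mpr hn), e3, if_neg (by linarith)]
        ring
      · have e2 : π n = n - m := by rw [hf', if_pos hn, if_neg hlt]
        have e3 : (n - m) % (2*m) = n % (2*m) - m := by
          have : n - m = (n % (2*m) - m) + (n / (2*m)) * (2*m) := by linear_combination -e
          conv_lhs => rw [this]
          exact emod_of_class (by linarith) (by linarith)
        rw [e2, hf', if_pos ((hAsub n).mpr hn), e3, if_pos (by linarith)]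
        ring
    · have e2 : π n = n := by rw [hf', if_neg hn]
      rw [e2, e2]
  · intro n
    show π n ≠ n ↔ n ∈ A
    rw [hf']
    constructor
    · intro h
      by_contra hn
      rw [if_neg hn] at h
      exact h rfl
    · intro hn
      rw [if_pos hn]
      split_ifs <;> intro h <;> linarith

/-- the action on clopen sets induced by an abstract isomorphism -/
def β (Φ : ↥(CT P) ≃* ↥(CT Q)) (A : Set ℤ) : Set ℤ :=
  {n | ∃ g : ↥(CT P), (∀ k, k ∉ A → (g : Equiv.Perm ℤ) k = k) ∧ ((Φ g : ↥(CT Q)) : Equiv.Perm ℤ) n ≠ n}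

variable (Φ : ↥(CT P) ≃* ↥(CT Q))

lemma β_mono {A B : Set ℤ} (h : A ⊆ B) : β Φ A ⊆ β Φ B := by
  rintro n ⟨g, hg, hn⟩
  exact ⟨g, fun k hk => hg k (fun h' => hk (h h')), hn⟩

lemma β_supp {π : ↥(CT P)} (hπ : π * π = 1) :
    β Φ {n | (π : Equiv.Perm ℤ) n ≠ n} = {n | ((Φ π : ↥(CT Q)) : Equiv.Perm ℤ) n ≠ n} := by
  have hπ' : Φ π * Φ π = 1 := by rw [← map_mul, hπ, map_one]
  ext n
  constructor
  · rintro ⟨g, hg, hn⟩
    have hgW : g ∈ WW π := (mem_WW hπ g).mpr (fun k hk => hg k (by simpa using hk))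
    have hgW' := (mem_WW_map Φ π g).mpr hgW
    rw [mem_WW hπ'] at hgW'
    intro hcon
    exact hn (hgW' n hcon)
  · intro hn
    exact ⟨π, fun k hk => by simpa using hk, hn⟩

lemma exists_invol' {A : Set ℤ} (hA : Clo P A) :
    ∃ π : ↥(CT P), π * π = 1 ∧ A = {n | (π : Equiv.Perm ℤ) n ≠ n} := by
  obtain ⟨π, h1, h2⟩ := exists_invol hA
  exact ⟨π, h1, by ext n; exact (h2 n).symm⟩

lemma clo_β {A : Set ℤ} (hA : Clo P A) : Clo Q (β Φ A) := by
  obtain ⟨π, h1, rfl⟩ := exists_invol' hA
  rw [β_supp Φ h1]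
  have hπ' : Φ π * Φ π = 1 := by rw [← map_mul, h1, map_one]
  exact clo_supp (Φ π).2 (sq_apply hπ')

lemma β_symm_β {A : Set ℤ} (hA : Clo P A) : β Φ.symm (β Φ A) = A := by
  obtain ⟨π, h1, rfl⟩ := exists_invol' hA
  rw [β_supp Φ h1]
  have hπ' : Φ π * Φ π = 1 := by rw [← map_mul, h1, map_one]
  rw [β_supp Φ.symm hπ']
  simp

lemma β_β_symm {A : Set ℤ} (hA : Clo Q A) : β Φ (β Φ.symm A) = A := by
  have := β_symm_β Φ.symm hA
  simpa using this

lemma β_empty : β Φ ∅ = ∅ := by
  rw [Set.eq_empty_iff_forall_notMem]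
  rintro n ⟨g, hg, hn⟩
  have : g = 1 := by
    apply Subtype.ext
    apply Equiv.ext
    intro k
    exact hg k (by simp)
  rw [this, map_one] at hn
  exact hn rfl

lemma β_univ : β Φ Set.univ = Set.univ := by
  apply Set.eq_univ_of_univ_subset
  conv_lhs => rw [← β_β_symm Φ (clo_univ (P := Q))]
  exact β_mono Φ (Set.subset_univ _)

lemma β_inter {A B : Set ℤ} (hA : Clo P A) (hB : Clo P B) : β Φ (A ∩ B) = β Φ A ∩ β Φ B := by
  apply Set.Subset.antisymm
  · exact Set.subset_inter (β_mono Φ Set.inter_subset_left) (β_mono Φ Set.inter_subset_right)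
  · have hD : Clo Q (β Φ A ∩ β Φ B) := (clo_β Φ hA).inter (clo_β Φ hB)
    rw [← β_β_symm Φ hD]
    apply β_mono
    apply Set.subset_inter
    · conv_rhs => rw [← β_symm_β Φ hA]
      exact β_mono _ Set.inter_subset_left
    · conv_rhs => rw [← β_symm_β Φ hB]
      exact β_mono _ Set.inter_subset_right

lemma β_compl {A : Set ℤ} (hA : Clo P A) : β Φ Aᶜ = (β Φ A)ᶜ := by
  have h1 : β Φ A ∩ β Φ Aᶜ = ∅ := by
    rw [← β_inter Φ hA hA.compl, Set.inter_compl_self, β_empty]
  have h2 : β Φ A ∪ β Φ Aᶜ = Set.univ := by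
    have hU : Clo Q (β Φ A ∪ β Φ Aᶜ) := (clo_β Φ hA).union (clo_β Φ hA.compl)
    rw [← β_β_symm Φ hU]
    have : β Φ.symm (β Φ A ∪ β Φ Aᶜ) = Set.univ := by
      apply Set.eq_univ_of_univ_subset
      rw [← Set.union_compl_self A]
      apply Set.union_subset
      · conv_lhs => rw [← β_symm_β Φ hA]
        exact β_mono _ Set.subset_union_left
      · conv_lhs => rw [← β_symm_β Φ hA.compl]
        exact β_mono _ Set.subset_union_right
    rw [this, β_univ]
  apply Set.Subset.antisymm
  · intro x hx hx'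
    have : x ∈ β Φ A ∩ β Φ Aᶜ := ⟨hx', hx⟩
    rw [h1] at this
    exact this
  · intro x hx
    have : x ∈ β Φ A ∪ β Φ Aᶜ := by rw [h2]; trivial
    rcases this with h | h
    · exact absurd h hx
    · exact h

lemma β_preimage_subset (g : ↥(CT P)) (A : Set ℤ) :
    β Φ ((g : Equiv.Perm ℤ) ⁻¹' A) ⊆ ((Φ g : ↥(CT Q)) : Equiv.Perm ℤ) ⁻¹' (β Φ A) := by
  rintro n ⟨g1, hg1, hn⟩
  refine ⟨g * g1 * g⁻¹, ?_, ?_⟩
  · intro k hk
    have h1 : (g : Equiv.Perm ℤ) ((g : Equiv.Perm ℤ)⁻¹ k) = k := self_pinv _ _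
    have h2 : (g1 : Equiv.Perm ℤ) ((g : Equiv.Perm ℤ)⁻¹ k) = (g : Equiv.Perm ℤ)⁻¹ k := by
      apply hg1
      rw [Set.mem_preimage, h1]
      exact hk
    show (g : Equiv.Perm ℤ) ((g1 : Equiv.Perm ℤ) ((g : Equiv.Perm ℤ)⁻¹ k)) = k
    rw [h2, h1]
  · rw [map_mul, map_mul, map_inv]
    show ((Φ g : ↥(CT Q)) : Equiv.Perm ℤ) (((Φ g1 : ↥(CT Q)) : Equiv.Perm ℤ)
      (((Φ g : ↥(CT Q)) : Equiv.Perm ℤ)⁻¹ (((Φ g : ↥(CT Q)) : Equiv.Perm ℤ) n))) ≠ _
    rw [pinv_self]
    intro hcon
    exact hn (((Φ g : ↥(CT Q)) : Equiv.Perm ℤ).injective hcon)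

end Pool.Agent.CTIso
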