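import Mathlib

set_option autoImplicit false

namespace Pool.Agent.CTIso

lemma int_finMult {q : ℕ} (hq : q.Prime) {W : ℤ} (hW : W ≠ 0) : FiniteMultiplicity (q : ℤ) W := by
  rw [Int.finiteMultiplicity_iff]
  exact ⟨by simpa using hq.one_lt.ne', hW⟩

lemma nt_aux1 {q : ℕ} (hq : q.Prime) {X W : ℤ} {c s : ℕ} (hW : ¬ (q:ℤ)^c ∣ W)
    (h : (q:ℤ)^(c+s) ∣ X*W) : (q:ℤ)^s ∣ X := by
  have hqp : Prime (q:ℤ) := Nat.prime_iff_prime_int.mp hq
  have hW0 : W ≠ 0 := by rintro rfl; exact hW (dvd_zero _)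
  obtain ⟨W1, hW1, hnd⟩ := (int_finMult hq hW0).exists_eq_pow_mul_and_not_dvd
  set j := multiplicity (q:ℤ) W
  have hj : j < c := by
    by_contra hcon
    push Not at hcon
    apply hW
    rw [hW1]
    exact (pow_dvd_pow _ hcon).mul_right _
  rw [hW1, ← mul_assoc] at h
  have h2 := hqp.pow_dvd_of_dvd_mul_right _ hnd h
  have h3 : (q:ℤ)^s * (q:ℤ)^j ∣ X * (q:ℤ)^j := by
    rw [← pow_add]
    exact (pow_dvd_pow _ (by omega)).trans h2
  exact (mul_dvd_mul_iff_right (pow_ne_zero _ hqp.ne_zero)).mp h3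

lemma nt {q : ℕ} (hq : q.Prime) {a b : ℤ} (ha : 0 < a) (hb : 0 < b) (hab : a ≠ b) (κ : ℕ) :
    ∃ s : ℕ, ∀ (T : ℕ), 0 < T → ∀ (c : ℕ) (W : ℤ), ¬ (q:ℤ)^c ∣ W →
      (q:ℤ)^(c+s) * a^T ∣ (a^T - b^T)*W → q^κ ∣ T := by
  have hqp : Prime (q:ℤ) := Nat.prime_iff_prime_int.mp hq
  obtain ⟨a1, ha1, hna⟩ := (int_finMult hq ha.ne').exists_eq_pow_mul_and_not_dvd
  obtain ⟨b1, hb1, hnb⟩ := (int_finMult hq hb.ne').exists_eq_pow_mul_and_not_dvd
  set μ := multiplicity (q:ℤ) a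
  set ν := multiplicity (q:ℤ) b
  have hqpos : (0:ℤ) < q := by exact_mod_cast hq.pos
  have ha1p : 0 < a1 := by
    by_contra h
    push Not at h
    have : a ≤ 0 := by rw [ha1]; exact mul_nonpos_of_nonneg_of_nonpos (by positivity) h
    linarith
  have hb1p : 0 < b1 := by
    by_contra h
    push Not at h
    have : b ≤ 0 := by rw [hb1]; exact mul_nonpos_of_nonneg_of_nonpos (by positivity) h
    linarith
  rcases lt_trichotomy μ ν with hlt | heq | hgt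
  · refine ⟨0, fun T hT c W hW hdvd => ?_⟩
    exfalso
    apply hW
    have e1 : a^T - b^T = (q:ℤ)^(μ*T) * (a1^T - ((q:ℤ)^(ν-μ) * b1)^T) := by
      have : b = (q:ℤ)^μ * ((q:ℤ)^(ν-μ) * b1) := by
        rw [← mul_assoc, ← pow_add, Nat.add_sub_cancel' hlt.le]; exact hb1
      rw [this]
      conv_lhs => rw [ha1]
      rw [mul_pow, mul_pow _ ((q:ℤ)^(ν-μ) * b1) T, ← pow_mul]; ring
    have e2 : a^T = (q:ℤ)^(μ*T) * a1^T := by
      conv_lhs => rw [ha1]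
      rw [mul_pow, ← pow_mul]
    rw [e1, e2] at hdvd
    have hY : ¬ (q:ℤ) ∣ a1^T - ((q:ℤ)^(ν-μ) * b1)^T := by
      intro h
      apply hna
      apply hqp.dvd_of_dvd_pow (n := T)
      have h2 : (q:ℤ) ∣ ((q:ℤ)^(ν-μ) * b1)^T :=
        dvd_pow ((dvd_pow_self _ (by omega)).mul_right _) hT.ne'
      have := dvd_add h h2
      simpa using this
    have h3 : (q:ℤ)^(μ*T) * (q:ℤ)^c ∣ (q:ℤ)^(μ*T) * ((a1^T - ((q:ℤ)^(ν-μ) * b1)^T) * W) := by
      refine Dvd.dvd.trans ?_ (hdvd.trans (dvd_of_eq (by ring)))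
      exact ⟨a1^T, by ring⟩
    have h4 := (mul_dvd_mul_iff_left (pow_ne_zero _ hqp.ne_zero)).mp h3
    exact hqp.pow_dvd_of_dvd_mul_left _ hY h4
  · have hab1 : a1 ≠ b1 := by
      rintro rfl
      apply hab
      rw [ha1, hb1, heq]
    have hxy : ∀ i, a1^((q-1)*q^i) ≠ b1^((q-1)*q^i) := by
      intro i h
      apply hab1
      have hn : (q-1)*q^i ≠ 0 := by
        have h1 := hq.two_le
        exact Nat.mul_ne_zero (by omega) (pow_ne_zero _ (by omega))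
      exact (pow_left_inj₀ ha1p.le hb1p.le hn).mp h
    refine ⟨1 + ∑ i ∈ Finset.range κ, multiplicity (q:ℤ) (a1^((q-1)*q^i) - b1^((q-1)*q^i)),
      fun T hT c W hW hdvd => ?_⟩
    set s := 1 + ∑ i ∈ Finset.range κ, multiplicity (q:ℤ) (a1^((q-1)*q^i) - b1^((q-1)*q^i)) with hs
    have e1 : a^T - b^T = (q:ℤ)^(μ*T) * (a1^T - b1^T) := by
      conv_lhs => rw [ha1, hb1, ← heq]
      rw [mul_pow, mul_pow, ← pow_mul]; ring
    have e2 : a^T = (q:ℤ)^(μ*T) * a1^T := by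
      conv_lhs => rw [ha1]
      rw [mul_pow, ← pow_mul]
    rw [e1, e2] at hdvd
    have h3 : (q:ℤ)^(μ*T) * (q:ℤ)^(c+s) ∣ (q:ℤ)^(μ*T) * ((a1^T - b1^T) * W) := by
      refine Dvd.dvd.trans ?_ (hdvd.trans (dvd_of_eq (by ring)))
      exact ⟨a1^T, by ring⟩
    have h4 := (mul_dvd_mul_iff_left (pow_ne_zero _ hqp.ne_zero)).mp h3
    have h5 := nt_aux1 hq hW h4
    by_contra hcon
    obtain ⟨t, ht, hnt⟩ := (Nat.finiteMultiplicity_iff.mpr ⟨hq.one_lt.ne', hT⟩ :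
      FiniteMultiplicity q T).exists_eq_pow_mul_and_not_dvd
    set i := multiplicity q T
    have hi : i < κ := by
      by_contra hcon2
      push Not at hcon2
      apply hcon
      rw [ht]
      exact (pow_dvd_pow _ hcon2).mul_right _
    have h6 : (q:ℤ)^s ∣ (a1^((q-1)*q^i))^t - (b1^((q-1)*q^i))^t := by
      have h7 : a1^T - b1^T ∣ (a1^T)^(q-1) - (b1^T)^(q-1) := sub_dvd_pow_sub_pow _ _ _
      have h8 := h5.trans h7
      rw [← pow_mul, ← pow_mul] at h8 ⊢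
      have h16 : (q-1)*q^i*t = T * (q-1) := by
        conv_rhs => rw [ht]
        ring
      rw [h16]
      exact h8
    have fermat : ∀ x : ℤ, ¬ (q:ℤ) ∣ x → (q:ℤ) ∣ x^((q-1)*q^i) - 1 := by
      intro x hx
      have hco : IsCoprime x (q:ℤ) := by
        rw [isCoprime_comm]
        exact (Prime.coprime_iff_not_dvd hqp).mpr hx
      have := Int.ModEq.pow_card_sub_one_eq_one hq hco
      have := this.pow (q^i)
      rw [one_pow, ← pow_mul] at this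
      exact (Int.modEq_iff_dvd.mp this.symm)
    have h9 : (q:ℤ) ∣ a1^((q-1)*q^i) - b1^((q-1)*q^i) := by
      have := dvd_sub (fermat a1 hna) (fermat b1 hnb)
      rwa [show a1^((q-1)*q^i) - 1 - (b1^((q-1)*q^i) - 1) = a1^((q-1)*q^i) - b1^((q-1)*q^i) by ring] at this
    have h10 : ¬ (q:ℤ) ∣ a1^((q-1)*q^i) := fun h => hna (hqp.dvd_of_dvd_pow h)
    have h11 : ¬ (q:ℤ) ∣ (t:ℤ) := by
      intro h; apply hnt; exact_mod_cast h
    have h12 := emultiplicity_pow_sub_pow_of_prime hqp h9 h10 h11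
    have h13 : (s:ℕ∞) ≤ emultiplicity (q:ℤ) (a1^((q-1)*q^i) - b1^((q-1)*q^i)) := by
      rw [← h12]; exact le_emultiplicity_of_pow_dvd h6
    rw [(int_finMult hq (sub_ne_zero.mpr (hxy i))).emultiplicity_eq_multiplicity] at h13
    have h14 : s ≤ multiplicity (q:ℤ) (a1^((q-1)*q^i) - b1^((q-1)*q^i)) := by exact_mod_cast h13
    have h15 : multiplicity (q:ℤ) (a1^((q-1)*q^i) - b1^((q-1)*q^i)) ≤
        ∑ i ∈ Finset.range κ, multiplicity (q:ℤ) (a1^((q-1)*q^i) - b1^((q-1)*q^i)) :=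
      Finset.single_le_sum (f := fun i => multiplicity (q:ℤ) (a1^((q-1)*q^i) - b1^((q-1)*q^i)))
        (fun _ _ => Nat.zero_le _) (Finset.mem_range.mpr hi)
    omega
  · refine ⟨0, fun T hT c W hW hdvd => ?_⟩
    exfalso
    apply hW
    have e1 : a^T - b^T = (q:ℤ)^(ν*T) * (((q:ℤ)^(μ-ν) * a1)^T - b1^T) := by
      have : a = (q:ℤ)^ν * ((q:ℤ)^(μ-ν) * a1) := by
        rw [← mul_assoc, ← pow_add, Nat.add_sub_cancel' hgt.le]; exact ha1
      conv_lhs => rw [this, hb1]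
      rw [mul_pow, mul_pow _ b1 T, ← pow_mul]; ring
    have e2 : a^T = (q:ℤ)^(ν*T) * ((q:ℤ)^((μ-ν)*T) * a1^T) := by
      conv_lhs => rw [ha1]
      rw [mul_pow, ← pow_mul, ← mul_assoc, ← pow_add]
      congr 2
      rw [← Nat.add_mul, Nat.add_sub_cancel' hgt.le]
    rw [e1, e2] at hdvd
    have hY : ¬ (q:ℤ) ∣ ((q:ℤ)^(μ-ν) * a1)^T - b1^T := by
      intro h
      apply hnb
      apply hqp.dvd_of_dvd_pow (n := T)
      have h2 : (q:ℤ) ∣ ((q:ℤ)^(μ-ν) * a1)^T :=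
        dvd_pow ((dvd_pow_self _ (by omega)).mul_right _) hT.ne'
      have := dvd_sub h2 h
      simpa using this
    have h3 : (q:ℤ)^(ν*T) * (q:ℤ)^c ∣ (q:ℤ)^(ν*T) * ((((q:ℤ)^(μ-ν) * a1)^T - b1^T) * W) := by
      refine Dvd.dvd.trans ?_ (hdvd.trans (dvd_of_eq (by ring)))
      exact ⟨(q:ℤ)^((μ-ν)*T) * a1^T, by ring⟩
    have h4 := (mul_dvd_mul_iff_left (pow_ne_zero _ hqp.ne_zero)).mp h3
    exact hqp.pow_dvd_of_dvd_mul_left _ hY h4

end Pool.Agent.CTIso
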