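import Mathlib
import Pool.Agent.CTIso.Beta
import Pool.Agent.CTIso.NT

set_option autoImplicit false

namespace Pool.Agent.CTIso

variable {P Q : Set ℕ}

lemma cl_subset {u u' n n' : ℤ} (h : n ∣ n') (h2 : n ∣ u' - u) : cl u' n' ⊆ cl u n := by
  rintro x ⟨k, rfl⟩
  rw [mem_cl']
  have : u' + k * n' - u = (u' - u) + k * n' := by ring
  rw [this]
  exact dvd_add h2 (h.mul_left _)

section
variable (Ψ : ↥(CT Q) ≃* ↥(CT P))

lemma exists_res (z : ℤ) {n : ℤ} (hn : Smooth Q n) : ∃ u, z ∈ β Ψ (cl u n) := by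
  by_contra hcon
  push Not at hcon
  have key : ∀ j : ℕ, Clo Q {x : ℤ | ∀ u : ℕ, u < j → x ∉ cl (u:ℤ) n} ∧
      z ∈ β Ψ {x : ℤ | ∀ u : ℕ, u < j → x ∉ cl (u:ℤ) n} := by
    intro j
    induction j with
    | zero =>
      have : {x : ℤ | ∀ u : ℕ, u < 0 → x ∉ cl (u:ℤ) n} = Set.univ := by
        ext x; simp
      rw [this, β_univ]
      exact ⟨clo_univ, trivial⟩
    | succ j ih =>
      have : {x : ℤ | ∀ u : ℕ, u < j + 1 → x ∉ cl (u:ℤ) n} =
          {x : ℤ | ∀ u : ℕ, u < j → x ∉ cl (u:ℤ) n} ∩ (cl (j:ℤ) n)ᶜ := by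
        ext x
        constructor
        · intro h
          exact ⟨fun u hu => h u (by omega), h j (by omega)⟩
        · rintro ⟨h1, h2⟩ u hu
          rcases Nat.lt_succ_iff_lt_or_eq.mp hu with h | rfl
          · exact h1 u h
          · exact h2
      rw [this, β_inter Ψ ih.1 (clo_cl hn _).compl, β_compl Ψ (clo_cl hn _)]
      exact ⟨ih.1.inter (clo_cl hn _).compl, ih.2, hcon _⟩
  have h1 := (key n.toNat).2
  have : {x : ℤ | ∀ u : ℕ, u < n.toNat → x ∉ cl (u:ℤ) n} = ∅ := by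
    rw [Set.eq_empty_iff_forall_notMem]
    intro x hx
    have hpos := hn.pos
    have h0 := Int.emod_nonneg x hpos.ne'
    have h1 := Int.emod_lt_of_pos x hpos
    apply hx (x % n).toNat (by omega)
    rw [mem_cl', Int.toNat_of_nonneg h0]
    exact Int.dvd_self_sub_emod
  rw [this, β_empty] at h1
  exact h1

lemma res_unique {z u u' n : ℤ} (hn : Smooth Q n) (h : z ∈ β Ψ (cl u n)) (h' : z ∈ β Ψ (cl u' n)) :
    n ∣ u - u' := by
  by_contra hcon
  have : cl u n ∩ cl u' n = ∅ := by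
    rw [Set.eq_empty_iff_forall_notMem]
    rintro x ⟨⟨k, hk⟩, ⟨k', hk'⟩⟩
    apply hcon
    exact ⟨k' - k, by linear_combination hk' - hk⟩
  have h2 : z ∈ β Ψ (cl u n ∩ cl u' n) := by
    rw [β_inter Ψ (clo_cl hn _) (clo_cl hn _)]
    exact ⟨h, h'⟩
  rw [this, β_empty] at h2
  exact h2

lemma mem_β_iff {z u n : ℤ} {C : Set ℤ} (hC : Clo Q C)
    (hper : ∀ x k : ℤ, x + k * n ∈ C ↔ x ∈ C) (h : z ∈ β Ψ (cl u n)) : z ∈ β Ψ C ↔ u ∈ C := by
  constructor
  · intro hz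
    by_contra hu
    have hsub : cl u n ⊆ Cᶜ := by
      rintro x ⟨k, rfl⟩ hx
      exact hu ((hper u k).mp hx)
    have := β_mono Ψ hsub h
    rw [β_compl Ψ hC] at this
    exact this hz
  · intro hu
    have hsub : cl u n ⊆ C := by
      rintro x ⟨k, rfl⟩
      exact (hper u k).mpr hu
    exact β_mono Ψ hsub h

lemma ostep {h' : ↥(CT Q)} {m m' r r' : ℤ}
    (hk : ∀ k, (h' : Equiv.Perm ℤ) (r + k*m) = r' + k*m') {z k n : ℤ}
    (hz : z ∈ β Ψ (cl (r + k * m) (m * n))) :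
    ((Ψ h' : ↥(CT P)) : Equiv.Perm ℤ) z ∈ β Ψ (cl (r' + k * m') (m' * n)) := by
  have hsub : cl (r + k * m) (m * n) ⊆ (h' : Equiv.Perm ℤ) ⁻¹' (cl (r' + k * m') (m' * n)) := by
    rintro x ⟨j, rfl⟩
    rw [Set.mem_preimage, show r + k * m + j * (m * n) = r + (k + j * n) * m by ring, hk]
    exact ⟨j, by ring⟩
  exact β_preimage_subset Ψ h' _ (β_mono Ψ hsub hz)

lemma tstep {h' : ↥(CT Q)} {m m' r r' : ℤ} (hm : Smooth Q m) (hm' : Smooth Q m')
    (hk : ∀ k, (h' : Equiv.Perm ℤ) (r + k*m) = r' + k*m') (T : ℕ) :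
    ∀ (z n u : ℤ), Smooth Q n →
      (∀ t < T, (((Ψ h' : ↥(CT P)) : Equiv.Perm ℤ))^[t] z ∈ β Ψ (cl r m)) →
      z ∈ β Ψ (cl u (m^T * n)) →
      ∃ u', (((Ψ h' : ↥(CT P)) : Equiv.Perm ℤ))^[T] z ∈ β Ψ (cl u' (m'^T * n)) ∧
        m'^T * ((m-m')*u - (m*r' - m'*r)) = m^T * ((m-m')*u' - (m*r'-m'*r)) := by
  induction T with
  | zero => 
    intro z n u hn _ hz
    exact ⟨u, by simpa using hz, by simp⟩
  | succ T ih =>
    intro z n u hn ht hz
    have hzr : z ∈ β Ψ (cl r m) := ht 0 (by omega)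
    have hzu : z ∈ β Ψ (cl u m) := β_mono Ψ (cl_subset ⟨m^T * n, by ring⟩ (by simp)) hz
    obtain ⟨k, hku⟩ := res_unique Ψ hm hzu hzr
    have hu : u = r + k * m := by linear_combination hku
    subst hu
    have h1 : z ∈ β Ψ (cl (r + k * m) (m * (m^T * n))) := by
      rwa [show m^(T+1) * n = m * (m^T * n) by ring] at hz
    have h2 := ostep Ψ hk h1
    rw [show m' * (m^T * n) = m^T * (m' * n) by ring] at h2
    obtain ⟨u', hu', he⟩ := ih _ (m' * n) _ (hm'.mul hn) (by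
      intro t htT
      have := ht (t+1) (by omega)
      rwa [Function.iterate_succ_apply] at this) h2
    refine ⟨u', ?_, ?_⟩
    · rw [Function.iterate_succ_apply, show m'^(T+1) * n = m'^T * (m' * n) by ring]
      exact hu'
    · have h3 : m' * ((m-m')*(r + k * m) - (m*r' - m'*r)) = m * ((m-m')*(r' + k * m') - (m*r' - m'*r)) := by
        ring
      calc m'^(T+1) * ((m-m')*(r + k * m) - (m*r' - m'*r)) 
          = m'^T * (m' * ((m-m')*(r + k * m) - (m*r' - m'*r))) := by ring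
        _ = m * (m'^T * ((m-m')*(r' + k * m') - (m*r' - m'*r))) := by rw [h3]; ring
        _ = _ := by rw [he]; ring

lemma common_period {N : ℤ} (hN : Smooth Q N) (j : ℕ) :
    ∃ L, Smooth P L ∧ ∀ u : ℕ, u < j → ∀ x k : ℤ,
      x + k * L ∈ β Ψ (cl (u:ℤ) N) ↔ x ∈ β Ψ (cl (u:ℤ) N) := by
  induction j with
  | zero => exact ⟨1, smooth_one, fun u hu => absurd hu (Nat.not_lt_zero u)⟩
  | succ j ih =>
    obtain ⟨L, hL, h1⟩ := ih
    obtain ⟨L', hL', h2⟩ := clo_β Ψ (clo_cl hN (j:ℤ))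
    refine ⟨L * L', hL.mul hL', fun u hu x k => ?_⟩
    rcases Nat.lt_succ_iff_lt_or_eq.mp hu with h | rfl
    · rw [show x + k * (L * L') = x + (k * L') * L by ring]
      exact h1 u h _ _
    · rw [show x + k * (L * L') = x + (k * L) * L' by ring]
      exact h2 _ _

end

lemma exists_doubling (P : Set ℕ) : ∃ h ∈ CT P, ∀ k : ℤ, h (4 * k) = 8 * k := by
  have s2 : Smooth P 2 := smooth_two
  have s4 : Smooth P 4 := by have := s2.mul s2; norm_num at this; exact this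
  have s8 : Smooth P 8 := by have := s2.mul s4; norm_num at this; exact this
  obtain ⟨τ1, h1, a1, -, -⟩ := exists_swap (P := P) (m1 := 4) (m2 := 2) (r1 := 0) (r2 := 1) s4 s2
    (by norm_num) (by norm_num) (by norm_num) (by norm_num) (by intro j k h; omega)
  obtain ⟨τ2, h2, a2, -, -⟩ := exists_swap (P := P) (m1 := 2) (m2 := 8) (r1 := 1) (r2 := 0) s2 s8
    (by norm_num) (by norm_num) (by norm_num) (by norm_num) (by intro j k h; omega)
  refine ⟨τ2 * τ1, mul_mem h2 h1, fun k => ?_⟩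
  simp only [Equiv.Perm.coe_mul, Function.comp]
  rw [show 4 * k = 0 + k * 4 by ring, a1, a2]
  ring

lemma exists_prime_pow {m0 d : ℤ} (hm0 : 0 < m0) (h : ¬ m0 ∣ d) :
    ∃ (q e : ℕ), q.Prime ∧ (q:ℤ)^e ∣ m0 ∧ ¬ (q:ℤ)^e ∣ d := by
  obtain ⟨a, rfl⟩ := Int.eq_ofNat_of_zero_le hm0.le
  have h' : ¬ a ∣ d.natAbs := by
    intro hd
    apply h
    exact Int.natCast_dvd.mpr hd
  have ha : a ≠ 0 := by rintro rfl; simp at hm0
  rw [Nat.dvd_iff_prime_pow_dvd_dvd] at h'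
  push Not at h'
  obtain ⟨q, e, hq, h1, h2⟩ := h'
  refine ⟨q, e, hq, by exact_mod_cast h1, ?_⟩
  intro h3
  apply h2
  have := Int.natAbs_dvd_natAbs.mpr h3
  rwa [Int.natAbs_pow, Int.natAbs_natCast] at this

theorem main_subset (hP : ∀ p ∈ P, Nat.Prime p ∧ p ≠ 2) (Ψ : ↥(CT Q) ≃* ↥(CT P)) : P ⊆ Q := by
  intro l hl
  obtain ⟨hlp, hl2⟩ := hP l hl
  obtain ⟨h0, hh0, hdbl⟩ := exists_doubling P
  obtain ⟨h', hh'⟩ := Ψ.surjective ⟨h0, hh0⟩
  have hΨ : ∀ x, ((Ψ h' : ↥(CT P)) : Equiv.Perm ℤ) x = h0 x := by intro x; rw [hh']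
  have hΨ' : (((Ψ h' : ↥(CT P)) : Equiv.Perm ℤ) : ℤ → ℤ) = h0 := by funext x; exact hΨ x
  obtain ⟨m, hm⟩ := exists_table h'.2
  obtain ⟨r, hr⟩ := exists_res Ψ 0 hm.1
  obtain ⟨m', hm', -, hk⟩ := hm.2 r
  obtain ⟨r', hr'⟩ : ∃ r', r' = (h' : Equiv.Perm ℤ) r := ⟨_, rfl⟩
  rw [← hr'] at hk
  have hms := hm.1
  obtain ⟨M1, hM1, hper1⟩ := clo_β Ψ (clo_cl hms r)
  have h4M1 : Smooth P (4 * M1) := by
    have := (smooth_two (P := P)).mul (smooth_two.mul hM1)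
    rwa [show (2:ℤ) * (2 * M1) = 4 * M1 by ring] at this
  -- zero is fixed
  have h00 : ((Ψ h' : ↥(CT P)) : Equiv.Perm ℤ) 0 = 0 := by
    rw [hΨ]; have := hdbl 0; simpa using this
  -- iterates
  have hiter : ∀ (t : ℕ) (c : ℤ), ((Ψ h' : ↥(CT P)) : Equiv.Perm ℤ)^[t] (4 * M1 * c) = 2^t * (4 * M1 * c) := by
    intro t
    induction t with
    | zero => intro c; simp
    | succ t ih =>
      intro c
      rw [Function.iterate_succ_apply, hΨ, show 4 * M1 * c = 4 * (M1 * c) by ring, hdbl,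
        show 8 * (M1 * c) = 4 * M1 * (2 * c) by ring, ih]
      ring
  have hmemC0 : ∀ c : ℤ, 4 * M1 * c ∈ β Ψ (cl r m) := by
    intro c
    have := (hper1 0 (4 * c)).mpr hr
    rwa [show 0 + 4 * c * M1 = 4 * M1 * c by ring] at this
  -- m ≠ m'
  have hne : m ≠ m' := by
    intro heq
    subst heq
    have hrr : r = r' := by
      by_contra hrr
      obtain ⟨j, hj⟩ := exists_pow_two_not_dvd (sub_ne_zero.mpr hrr)
      have h2j : Smooth Q ((2:ℤ)^j) := smooth_two.pow j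
      obtain ⟨u, hu⟩ := exists_res Ψ 0 (hms.mul h2j)
      have hu1 : (0:ℤ) ∈ β Ψ (cl u m) := β_mono Ψ (cl_subset ⟨_, rfl⟩ (by simp)) hu
      obtain ⟨k, hku⟩ := res_unique Ψ hms hu1 hr
      have hu' : u = r + k * m := by linear_combination hku
      subst hu'
      have h2 := ostep Ψ hk hu
      rw [h00] at h2
      have h3 := res_unique Ψ (hms.mul h2j) hu h2
      apply hj
      have : r - r' = (r + k * m) - (r' + k * m) := by ring
      rw [this]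
      exact (Dvd.intro_left _ rfl).trans h3
    rw [← hrr] at hk
    have hAclo : Clo P (cl (4 * M1) (8 * M1)) := by
      apply clo_cl
      have := (smooth_two (P := P)).mul h4M1
      rwa [show (2:ℤ) * (4 * M1) = 8 * M1 by ring] at this
    have hAsub : cl (4 * M1) (8 * M1) ⊆ β Ψ (cl r m) := by
      rintro x ⟨k, rfl⟩
      rw [show 4 * M1 + k * (8 * M1) = 4 * M1 * (1 + 2 * k) by ring]
      exact hmemC0 _
    have hA'sub : β Ψ.symm (cl (4 * M1) (8 * M1)) ⊆ cl r m := by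
      rw [← β_symm_β Ψ (clo_cl hms r)]
      exact β_mono _ hAsub
    have hA' : β Ψ (β Ψ.symm (cl (4 * M1) (8 * M1))) = cl (4 * M1) (8 * M1) := β_β_symm Ψ hAclo
    have hsub : β Ψ.symm (cl (4 * M1) (8 * M1)) ⊆
        (h' : Equiv.Perm ℤ) ⁻¹' (β Ψ.symm (cl (4 * M1) (8 * M1))) := by
      intro x hx
      obtain ⟨k, hk'⟩ := hA'sub hx
      rw [Set.mem_preimage, hk', hk, ← hk']
      exact hx
    have h1 : 4 * M1 ∈ β Ψ (β Ψ.symm (cl (4 * M1) (8 * M1))) := by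
      rw [hA']; exact self_mem_cl _ _
    have h2 := β_preimage_subset Ψ h' _ (β_mono Ψ hsub h1)
    rw [Set.mem_preimage, hA', hΨ, hdbl, mem_cl'] at h2
    obtain ⟨k, hk2⟩ := h2
    have hM1p := hM1.pos
    have : M1 * (1 - 2 * k) = 0 := by linarith
    rcases mul_eq_zero.mp this with h | h
    · exact hM1p.ne' h
    · omega
  -- the fixed point
  have hfix : ∀ n, Smooth Q n → ∃ x, (0:ℤ) ∈ β Ψ (cl x n) ∧ n ∣ (m - m') * x - (m * r' - m' * r) := by
    intro n hn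
    obtain ⟨u, hu⟩ := exists_res Ψ 0 (hms.mul hn)
    obtain ⟨u', hu', he⟩ := tstep Ψ hms hm' hk 1 0 n u hn (by
      intro t ht
      obtain rfl : t = 0 := by omega
      simpa using hr) (by rwa [pow_one])
    rw [pow_one, Function.iterate_one, h00] at hu'
    rw [pow_one, pow_one] at he
    have h1 : (0:ℤ) ∈ β Ψ (cl u n) := β_mono Ψ (cl_subset (Dvd.intro_left _ rfl) (by simp)) hu
    have h2 : (0:ℤ) ∈ β Ψ (cl u' n) := β_mono Ψ (cl_subset (Dvd.intro_left _ rfl) (by simp)) hu'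
    refine ⟨u, h1, ?_⟩
    have h3 := res_unique Ψ hn h1 h2
    have h4 : (m - m') * (((m - m') * u - (m * r' - m' * r)) - m * (u - u')) = 0 := by
      linear_combination -he
    rcases mul_eq_zero.mp h4 with h | h
    · exact absurd (sub_eq_zero.mp h) hne
    · rw [sub_eq_zero.mp h]
      exact h3.mul_left _
  -- the set A
  have hlS : Smooth P ((l:ℤ) * (4 * M1)) := (smooth_prime hlp hl).mul h4M1
  have hAclo : Clo P (cl 0 ((l:ℤ) * (4 * M1)))ᶜ := (clo_cl hlS 0).compl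
  obtain ⟨m0, hm0, hperA⟩ := clo_β Ψ.symm hAclo
  have hA' : β Ψ (β Ψ.symm (cl 0 ((l:ℤ) * (4 * M1)))ᶜ) = (cl 0 ((l:ℤ) * (4 * M1)))ᶜ :=
    β_β_symm Ψ hAclo
  have hA'clo : Clo Q (β Ψ.symm (cl 0 ((l:ℤ) * (4 * M1)))ᶜ) := ⟨m0, hm0, hperA⟩
  set A' := β Ψ.symm (cl 0 ((l:ℤ) * (4 * M1)))ᶜ with hA'def
  -- constants
  have hs : ∀ q : ℕ, ∃ s : ℕ, q.Prime → ∀ (T : ℕ), 0 < T → ∀ (c : ℕ) (W : ℤ), ¬ (q:ℤ)^c ∣ W →
      (q:ℤ)^(c+s) * m^T ∣ (m^T - m'^T)*W → q^l ∣ T := by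
    intro q
    by_cases hq : q.Prime
    · obtain ⟨s, hs⟩ := nt hq hms.pos hm'.pos hne l
      exact ⟨s, fun _ => hs⟩
    · exact ⟨0, fun h => absurd h hq⟩
  choose s hs using hs
  set S : ℕ := 1 + ∑ q ∈ m0.natAbs.primeFactors,
    (multiplicity (q:ℤ) m0 + multiplicity (q:ℤ) (m - m') + s q) with hS
  have hNs : Smooth Q (m0 ^ S) := hm0.pow S
  obtain ⟨x0, hx0, hwx0⟩ := hfix _ hNs
  obtain ⟨L, hL, hperL⟩ := common_period Ψ hNs (m0^S).toNat
  have hperL' : ∀ (u x k : ℤ), x + k * L ∈ β Ψ (cl u (m0^S)) ↔ x ∈ β Ψ (cl u (m0^S)) := by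
    intro u x k
    have hp := hNs.pos
    have a0 := Int.emod_nonneg u hp.ne'
    have a1 := Int.emod_lt_of_pos u hp
    have e : cl u (m0^S) = cl (((u % m0^S).toNat : ℕ) : ℤ) (m0^S) := by
      rw [Int.toNat_of_nonneg a0]
      apply Set.Subset.antisymm
      · exact cl_subset dvd_rfl Int.dvd_self_sub_emod
      · apply cl_subset dvd_rfl
        rw [← dvd_neg, neg_sub]
        exact Int.dvd_self_sub_emod
    rw [e]
    exact hperL _ (by omega) x k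
  obtain ⟨mt, hmt, hndvd⟩ := (int_finMult hlp hL.ne_zero).exists_eq_pow_mul_and_not_dvd
  set E := multiplicity (l:ℤ) L
  set T : ℕ := (l - 1) * l^E with hT
  have hTpos : 0 < T := by
    have := hlp.two_le
    exact Nat.mul_pos (by omega) (pow_pos (by omega) _)
  set z : ℤ := 4 * M1 * mt with hz
  have hzA : z ∈ (cl 0 ((l:ℤ) * (4 * M1)))ᶜ := by
    intro hcon
    rw [mem_cl', sub_zero] at hcon
    apply hndvd
    have h1 : (4 * M1) * (l:ℤ) ∣ (4 * M1) * mt := by rwa [mul_comm (l:ℤ)] at hcon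
    exact (mul_dvd_mul_iff_left h4M1.ne_zero).mp h1
  have h0A : (0:ℤ) ∉ (cl 0 ((l:ℤ) * (4 * M1)))ᶜ := by
    intro h; exact h (self_mem_cl _ _)
  obtain ⟨u0, hu0⟩ := exists_res Ψ z ((hms.pow T).mul hNs)
  obtain ⟨u', hu', he⟩ := tstep Ψ hms hm' hk T z _ u0 hNs (by
    intro t _
    rw [hz, hiter, show 2^t * (4 * M1 * mt) = 4 * M1 * (2^t * mt) by ring]
    exact hmemC0 _) hu0
  rw [hz, hiter, ← hz] at hu'
  have hu0N : z ∈ β Ψ (cl u0 (m0^S)) := β_mono Ψ (cl_subset (Dvd.intro_left _ rfl) (by simp)) hu0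
  have hu'N : 2^T * z ∈ β Ψ (cl u' (m0^S)) := β_mono Ψ (cl_subset (Dvd.intro_left _ rfl) (by simp)) hu'
  -- 2^T z ≡ z mod L
  have hLd : L ∣ 2^T * z - z := by
    have h1 : (l:ℤ)^E ∣ 2^T - 1 := by
      have h2 : Nat.Coprime 2 (l^(E+1)) := by
        apply Nat.Coprime.pow_right
        rw [Nat.coprime_primes Nat.prime_two hlp]
        exact hl2.symm
      have h3 := Nat.ModEq.pow_totient h2
      rw [Nat.totient_prime_pow_succ hlp, show l^E * (l-1) = T by rw [hT]; ring] at h3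
      have h4 := (Nat.modEq_iff_dvd.mp h3.symm)
      push_cast at h4
      exact (pow_dvd_pow _ (Nat.le_succ E)).trans h4
    have e : 2^T * z - z = (2^T - 1) * mt * (4 * M1) := by rw [hz]; ring
    rw [e]
    conv_lhs => rw [hmt]
    exact (mul_dvd_mul_right h1 mt).mul_right _
  obtain ⟨kL, hkL⟩ := hLd
  have hu0N' : 2^T * z ∈ β Ψ (cl u0 (m0^S)) := by
    have := (hperL' u0 z kL).mpr hu0N
    rwa [show z + kL * L = 2^T * z by linear_combination -hkL] at this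
  have hdvd := res_unique Ψ hNs hu0N' hu'N
  -- star
  have hstar : m0^S * m^T ∣ (m^T - m'^T) * ((m-m')*u0 - (m*r' - m'*r)) := by
    obtain ⟨c, hc⟩ := hdvd
    refine ⟨(m - m') * c, ?_⟩
    linear_combination -he + m^T * (m - m') * hc
  -- separation
  have hm0S : m0 ∣ m0^S := dvd_pow_self _ (by omega)
  have hperA' : ∀ x k : ℤ, x + k * m0^S ∈ A' ↔ x ∈ A' := by
    intro x k
    obtain ⟨c, hc⟩ := hm0S
    rw [hc, show x + k * (m0 * c) = x + (k * c) * m0 by ring]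
    exact hperA _ _
  have hu0A : u0 ∈ A' := by
    rw [← mem_β_iff Ψ hA'clo hperA' hu0N, hA']
    exact hzA
  have hx0A : x0 ∉ A' := by
    rw [← mem_β_iff Ψ hA'clo hperA' hx0, hA']
    exact h0A
  have hnd : ¬ m0 ∣ u0 - x0 := by
    rintro ⟨c, hc⟩
    apply hx0A
    rw [← hperA x0 c, show x0 + c * m0 = u0 by linear_combination -hc]
    exact hu0A
  obtain ⟨q, e, hq, hqe, hqn⟩ := exists_prime_pow hm0.pos hnd
  have hqp : Prime (q:ℤ) := Nat.prime_iff_prime_int.mp hq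
  have he0 : e ≠ 0 := by rintro rfl; simp at hqn
  have hqm0 : (q:ℤ) ∣ m0 := (dvd_pow_self _ he0).trans hqe
  have hD : m - m' ≠ 0 := sub_ne_zero.mpr hne
  obtain ⟨D1, hD1, hD1n⟩ := (int_finMult hq hD).exists_eq_pow_mul_and_not_dvd
  set v := multiplicity (q:ℤ) (m - m') with hv
  have hev : e ≤ multiplicity (q:ℤ) m0 :=
    (int_finMult hq hm0.ne_zero).le_multiplicity_of_pow_dvd hqe
  have hqmem : q ∈ m0.natAbs.primeFactors := by
    rw [Nat.mem_primeFactors]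
    refine ⟨hq, ?_, Int.natAbs_ne_zero.mpr hm0.ne_zero⟩
    have := Int.natAbs_dvd_natAbs.mpr hqm0
    rwa [Int.natAbs_natCast] at this
  have hSle : multiplicity (q:ℤ) m0 + multiplicity (q:ℤ) (m - m') + s q ≤
      ∑ q ∈ m0.natAbs.primeFactors, (multiplicity (q:ℤ) m0 + multiplicity (q:ℤ) (m - m') + s q) :=
    Finset.single_le_sum
      (f := fun q : ℕ => multiplicity (q:ℤ) m0 + multiplicity (q:ℤ) (m - m') + s q)
      (fun _ _ => Nat.zero_le _) hqmem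
  have hcS : (e + v) + s q ≤ S := by omega
  have hqN : (q:ℤ)^((e+v) + s q) ∣ m0^S :=
    (pow_dvd_pow _ hcS).trans (pow_dvd_pow_of_dvd hqm0 S)
  have hW : ¬ (q:ℤ)^(e+v) ∣ (m-m')*u0 - (m*r' - m'*r) := by
    intro hcon
    apply hqn
    have h1 : (q:ℤ)^(e+v) ∣ (m - m') * (u0 - x0) := by
      have h2 : (q:ℤ)^(e+v) ∣ (m-m')*x0 - (m*r' - m'*r) :=
        ((pow_dvd_pow _ (by omega)).trans hqN).trans hwx0
      have := dvd_sub hcon h2
      rwa [show (m-m')*u0 - (m*r' - m'*r) - ((m-m')*x0 - (m*r' - m'*r)) = (m-m') * (u0 - x0) by ring] at this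
    rw [hD1, pow_add, show (q:ℤ)^e * (q:ℤ)^v = (q:ℤ)^v * (q:ℤ)^e by ring, mul_assoc] at h1
    have h3 := (mul_dvd_mul_iff_left (pow_ne_zero _ hqp.ne_zero)).mp h1
    exact hqp.pow_dvd_of_dvd_mul_left _ hD1n h3
  have hfinal := hs q hq T hTpos (e+v) _ hW ((mul_dvd_mul_right hqN _).trans hstar)
  have hql : q = l := by
    by_contra hql
    have hco : Nat.Coprime (q^l) (l^E) := Nat.Coprime.pow _ _ ((Nat.coprime_primes hq hlp).mpr hql)
    have h1 : q^l ∣ l - 1 := hco.dvd_of_dvd_mul_right hfinal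
    have h2 : q^l ≤ l - 1 := Nat.le_of_dvd (by have := hlp.two_le; omega) h1
    have h3 : l < 2^l := Nat.lt_two_pow_self
    have h4 : 2^l ≤ q^l := Nat.pow_le_pow_left hq.two_le l
    omega
  rcases hm0.2 q hq hqm0 with h | h
  · exact absurd (hql ▸ h) hl2
  · rwa [hql] at h

theorem main_eq (hP : ∀ p ∈ P, Nat.Prime p ∧ p ≠ 2) (hQ : ∀ q ∈ Q, Nat.Prime q ∧ q ≠ 2)
    (Φ : ↥(CT P) ≃* ↥(CT Q)) : P = Q :=
  Set.Subset.antisymm (main_subset hP Φ.symm) (main_subset hQ Φ)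

end Pool.Agent.CTIso
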